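import Pool.Agent.R384.X.Loc7

/-!
# The elements that satisfy the local conditions, the prime `√-7` being one of the bad primes
-/

set_option autoImplicit false
set_option linter.unusedSectionVars false

namespace Pool.Agent.R384

open QuadraticAlgebra

/-- The condition on the symbols. -/
def Indec7 {n : ℕ} (q : Fin n → OO) : Prop :=
  ∀ S : Finset (Fin n), (∀ i, i ∉ S → ∑ k ∈ S, qs (q i) (q k) = 0) →
    (∀ i, i ∈ S → qs (q i) s7 + ∑ k ∈ Sᶜ, qs (q i) (q k) = 0) → S = ∅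

section sums

variable {n : ℕ}

lemma sum_zero (q : Fin n → OO) (hq : ∀ i, Pr (q i)) (h8 : (8 : OO) ∣ ∏ i, q i - 1) :
    ∑ i, qs (q i) om = 0 := by
  rw [(sum_om q hq Finset.univ).2.2]
  obtain ⟨t, ht⟩ := h8
  have h2 := congrArg QuadraticAlgebra.re ht
  rw [re_sub, re_mul] at h2
  simp at h2
  omega

lemma sum_zero' (q : Fin n → OO) (hq : ∀ i, Pr (q i)) (h8 : (8 : OO) ∣ ∏ i, q i - 1) :
    ∑ i, qs (q i) (1 - om) = 0 := by
  have h1 := sum_zero (fun i => cj (q i)) (fun i => (hq i).cj) (by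
    have h1 := cj_dvd h8
    have e1 : cj 8 = 8 := by
      show cjH _ = _
      rw [map_ofNat]
    have e2 : cj (∏ i, q i - 1) = ∏ i, cj (q i) - 1 := by
      show cjH _ = ∏ i, cjH _ - 1
      rw [map_sub, map_prod, map_one]
    rwa [e1, e2] at h1)
  rw [← h1]
  apply Finset.sum_congr rfl
  intro i _
  apply qs_eq
  rw [← sqm_cj]
  have : cj (1 - om) = om := by ext <;> simp [cj, om]
  rw [this]

end sums

section alg

variable {n : ℕ} {q : Fin n → OO} (hq : ∀ i, Pr (q i)) (hinj : Function.Injective q)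

/-- the linear algebra -/
lemma lin7 (hq : ∀ i, Pr (q i)) (hinj : Function.Injective q) (hind : Indec7 q) {b : Fin n → ZMod 2}
    (hb : ∑ i, b i = 0) {a : ZMod 2} {T : Finset (Fin n)}
    (h1 : ∀ i, i ∉ T → a * b i + ∑ k ∈ T, qs (q i) (q k) = 0)
    (h2 : ∀ i, i ∈ T → a * b i + qs (q i) s7 + ∑ k ∈ Tᶜ, qs (q i) (q k) = 0)
    (h3 : a + ∑ i ∈ T, qs s7 (q i) = 0) : a = 0 ∧ T = ∅ := by
  classical
  have ha0 : a = 0 := by
    have g1 : ∑ i ∈ T, (a * b i + qs (q i) s7 + ∑ k ∈ Tᶜ, qs (q i) (q k)) = 0 :=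
      Finset.sum_eq_zero fun i hi => h2 i hi
    have g2 : ∑ i ∈ Tᶜ, (a * b i + ∑ k ∈ T, qs (q i) (q k)) = 0 :=
      Finset.sum_eq_zero fun i hi => h1 i (by simpa using hi)
    rw [Finset.sum_add_distrib, Finset.sum_add_distrib, ← Finset.mul_sum] at g1
    rw [Finset.sum_add_distrib, ← Finset.mul_sum] at g2
    have g3 : ∑ i ∈ Tᶜ, ∑ k ∈ T, qs (q i) (q k) = ∑ i ∈ T, ∑ k ∈ Tᶜ, qs (q i) (q k) := by
      rw [Finset.sum_comm]
      apply Finset.sum_congr rfl
      intro i hi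
      apply Finset.sum_congr rfl
      intro k hk
      apply recip (hq k) (hq i)
      intro h
      rw [Finset.mem_compl] at hk
      exact hk (hinj h ▸ hi)
    rw [g3] at g2
    have g4 : ∑ i ∈ T, qs (q i) s7 = ∑ i ∈ T, qs s7 (q i) :=
      Finset.sum_congr rfl fun i _ => recip7 (hq i)
    rw [g4] at g1
    have h5 : ∀ x : ZMod 2, x + x = 0 := by decide
    rw [← Finset.sum_add_sum_compl T] at hb
    linear_combination h3 - g1 - g2 + a * hb + h5 (∑ i ∈ T, ∑ k ∈ Tᶜ, qs (q i) (q k))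
  refine ⟨ha0, hind T (fun i hi => ?_) fun i hi => ?_⟩
  · have := h1 i hi
    rwa [ha0, zero_mul, zero_add] at this
  · have := h2 i hi
    rwa [ha0, zero_mul, zero_add] at this

include hq hinj

theorem alg7 {m' δ v : OO} (hv : v = 1 ∨ v = -1) (hm' : m' = v * (s7 * ∏ i, q i))
    (h8 : (8 : OO) ∣ ∏ i, q i - 1) (hind : Indec7 q) {ϖ : OO} {w4 : ZMod 4}
    (hw4 : w4 ^ 2 = w4 - 2) (hϖ : (ϖ = 1 - om ∧ w4 = 2) ∨ (ϖ = om ∧ w4 = 3))
    (hm4 : em hw4 m' = 1) (hδ4 : em hw4 δ = 1) (hδ : Squarefree δ)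
    (hsup : ∀ π, Prime π → π ∣ δ → π ∣ ϖ ∨ π ∣ s7 ∨ ∃ i, π ∣ q i)
    (hloc : ∀ i, (¬ q i ∣ δ ∧ Sqm (q i) δ) ∨
      ∃ δ1 m1, δ = q i * δ1 ∧ m' = q i * m1 ∧ Sqm (q i) (δ1 * m1))
    (hloc7 : (¬ s7 ∣ δ ∧ Sqm s7 δ) ∨
      ∃ δ1 m1, δ = s7 * δ1 ∧ m' = s7 * m1 ∧ Sqm s7 (δ1 * m1)) :
    δ = 1 ∨ δ = m' := by
  classical
  have hϖc : ϖ = om ∨ ϖ = 1 - om := by
    rcases hϖ with ⟨h, -⟩ | ⟨h, -⟩
    · exact Or.inr h
    · exact Or.inl h
  have hϖp : Prime ϖ := by
    rcases hϖc with rfl | rfl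
    · exact prime_om
    · exact prime_om'
  have hs70 : s7 ≠ 0 := prime_s7.ne_zero
  have hϖ7 : ¬ s7 ∣ ϖ := by
    intro h
    obtain ⟨t, ht⟩ := (prime_s7.dvd_prime_iff_associated hϖp).1 h
    have h1 := congrArg nn ht
    rw [nn_mul, nn_s7, unit_iff.1 t.isUnit] at h1
    rcases hϖc with rfl | rfl
    · simp [nn, om] at h1
    · simp [nn, om] at h1
  have hϖ7s : qs s7 ϖ = 0 := by
    rcases hϖc with rfl | rfl
    · exact qs7_om
    · exact qs7_om'
  -- the part prime to `√-7`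
  obtain ⟨f, δ', hf, hδf, hδ7⟩ : ∃ (f : ℕ) (δ' : OO), (f = 0 ∨ f = 1) ∧ δ = s7 ^ f * δ' ∧ ¬ s7 ∣ δ' := by
    by_cases h : s7 ∣ δ
    · obtain ⟨δ', h'⟩ := h
      refine ⟨1, δ', Or.inr rfl, by rw [h', pow_one], ?_⟩
      rintro ⟨t, ht⟩
      apply prime_s7.not_isUnit
      apply hδ s7
      rw [h', ht]
      exact ⟨t, by ring⟩
    · exact ⟨0, δ, Or.inl rfl, by rw [pow_zero, one_mul], h⟩
  have hδ' : Squarefree δ' := hδ.squarefree_of_dvd (by rw [hδf]; exact Dvd.intro_left _ rfl)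
  have hδd : δ' ∣ δ := by rw [hδf]; exact Dvd.intro_left _ rfl
  obtain ⟨u, a, S, hu, ha, hS, hδe⟩ := decomp hq hinj hϖc hδ' (by
    intro π hπ hπδ
    rcases hsup π hπ (hπδ.trans hδd) with h | h | h
    · exact Or.inl h
    · exfalso
      exact hδ7 (((hπ.dvd_prime_iff_associated prime_s7).1 h).symm.dvd.trans hπδ)
    · exact Or.inr h)
  have hS' : ∀ i, i ∈ S ↔ q i ∣ δ := by
    intro i
    rw [hS, hδf]
    constructor
    · exact fun h => Dvd.dvd.mul_left h _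
    · intro h
      rcases (hq i).prime.dvd_or_dvd h with h1 | h1
      · exact absurd ((hq i).prime.dvd_of_dvd_pow h1) (hq i).not_s7
      · exact h1
  have hϖ2 : ∀ i, ¬ q i ∣ ϖ := by
    intro i
    rcases hϖc with rfl | rfl
    · exact not_dvd_two_div (hq i) om_mul
    · exact not_dvd_two_div (hq i) (by rw [mul_comm]; exact om_mul)
  have hϖa : ∀ i, ¬ q i ∣ ϖ ^ a ∧ qs (q i) (ϖ ^ a) = a * qs (q i) ϖ := by
    intro i
    rcases ha with rfl | rfl
    · refine ⟨fun h => (hq i).prime.not_isUnit (isUnit_of_dvd_one (by simpa using h)), ?_⟩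
      rw [pow_zero, qs_one]; simp
    · rw [pow_one]
      exact ⟨hϖ2 i, by simp⟩
  have hsf : ∀ i, ¬ q i ∣ s7 ^ f ∧ qs (q i) (s7 ^ f) = f * qs (q i) s7 := by
    intro i
    rcases hf with rfl | rfl
    · refine ⟨fun h => (hq i).prime.not_isUnit (isUnit_of_dvd_one (by simpa using h)), ?_⟩
      rw [pow_zero, qs_one]; simp
    · rw [pow_one]
      exact ⟨(hq i).not_s7, by simp⟩
  have hsum : ∑ i, qs (q i) ϖ = 0 := by
    rcases hϖc with rfl | rfl
    · exact sum_zero q hq h8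
    · exact sum_zero' q hq h8
  -- the conditions
  have c1 : ∀ i, i ∉ S → a * qs (q i) ϖ + f * qs (q i) s7 + ∑ k ∈ S, qs (q i) (q k) = 0 := by
    intro i hi
    rcases hloc i with ⟨-, h1⟩ | ⟨δ1, m1, h1, -⟩
    · rw [← qs_zero, hδf, hδe] at h1
      have n1 := nd_prod hq hinj hi
      have n2 : ¬ q i ∣ u * ϖ ^ a := fun h => ((hq i).prime.dvd_or_dvd h).elim
        (nd_unit hq hu).1 (hϖa i).1
      have n3 : ¬ q i ∣ u * ϖ ^ a * ∏ k ∈ S, q k := fun h => ((hq i).prime.dvd_or_dvd h).elim n2 n1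
      rw [qs_mul (hq i) (hsf i).1 n3, qs_mul (hq i) n2 n1,
        qs_mul (hq i) (nd_unit hq hu).1 (hϖa i).1, (nd_unit hq hu).2,
        (hϖa i).2, (hsf i).2, zero_add, qs_prod (hq i)] at h1
      · rw [← h1]
        ring
      · intro k hk
        exact nd hq hinj (fun h => hi (h ▸ hk))
    · exact absurd ((hS' i).2 ⟨δ1, h1⟩) hi
  have huv : u * v = 1 ∨ u * v = -1 := by
    rcases hu with rfl | rfl <;> rcases hv with rfl | rfl <;> simp
  have c2 : ∀ i, i ∈ S → a * qs (q i) ϖ + (f * qs (q i) s7 + qs (q i) s7) +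
      ∑ k ∈ Sᶜ, qs (q i) (q k) = 0 := by
    intro i hi
    rcases hloc i with ⟨h1, -⟩ | ⟨δ1, m1, h1, h2, h3⟩
    · exact absurd ((hS' i).1 hi) h1
    · have hq0 := (hq i).prime.ne_zero
      have e1 : δ1 = s7 ^ f * (u * ϖ ^ a * ∏ k ∈ S.erase i, q k) := by
        apply mul_left_cancel₀ hq0
        rw [← h1, hδf, hδe, ← Finset.mul_prod_erase S q hi]
        ring
      have e2 : m1 = v * (s7 * ((∏ k ∈ S.erase i, q k) * ∏ k ∈ Sᶜ, q k)) := by
        apply mul_left_cancel₀ hq0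
        rw [← h2, hm', ← Finset.prod_mul_prod_compl S q, ← Finset.mul_prod_erase S q hi]
        ring
      have e3 : δ1 * m1 = (s7 ^ f * (s7 * (u * v * ϖ ^ a * ∏ k ∈ Sᶜ, q k))) *
          (∏ k ∈ S.erase i, q k) ^ 2 := by
        rw [e1, e2]
        ring
      have hi' : i ∉ Sᶜ := by simpa using hi
      have n1 := nd_prod hq hinj hi'
      have n2 : ¬ q i ∣ u * v * ϖ ^ a := fun h => ((hq i).prime.dvd_or_dvd h).elim
        (nd_unit hq huv).1 (hϖa i).1
      have n3 : ¬ q i ∣ u * v * ϖ ^ a * ∏ k ∈ Sᶜ, q k := fun h =>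
        ((hq i).prime.dvd_or_dvd h).elim n2 n1
      have n4 : ¬ q i ∣ s7 * (u * v * ϖ ^ a * ∏ k ∈ Sᶜ, q k) := fun h =>
        ((hq i).prime.dvd_or_dvd h).elim (hq i).not_s7 n3
      rw [← qs_zero, e3, qs_mul_sq (hq i) (nd_prod hq hinj (Finset.notMem_erase i S)),
        qs_mul (hq i) (hsf i).1 n4, qs_mul (hq i) (hq i).not_s7 n3, qs_mul (hq i) n2 n1,
        qs_mul (hq i) (nd_unit hq huv).1 (hϖa i).1, (nd_unit hq huv).2,
        (hϖa i).2, (hsf i).2, zero_add, qs_prod (hq i)] at h3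
      · rw [← h3]
        ring
      · intro k hk
        exact nd hq hinj (fun h => hi' (h ▸ hk))
  -- reduction modulo four
  have hq4 : ∀ T : Finset (Fin n), em hw4 (∏ i ∈ T, q i) = 1 := by
    intro T
    rw [map_prod]
    apply Finset.prod_eq_one
    intro i _
    obtain ⟨t, ht⟩ := (hq i).one
    have h1 := congrArg (em hw4) ht
    rw [map_sub, map_mul, map_one, map_ofNat] at h1
    have h40 : (4 : ZMod 4) = 0 := by decide
    rw [h40, zero_mul] at h1
    exact sub_eq_zero.1 h1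
  have hϖ4 : em hw4 ϖ = -1 := by
    rcases hϖ with ⟨rfl, rfl⟩ | ⟨rfl, rfl⟩
    · rw [map_sub, map_one, em_apply]
      simp only [om]
      decide
    · rw [em_apply]
      simp only [om]
      decide
  have hs74 : em hw4 s7 * em hw4 s7 = 1 := by
    rw [← map_mul, s7_sq, map_neg, map_ofNat]
    decide
  have hcase : ∀ {U : OO}, (U = 1 ∨ U = -1) → em hw4 U * (-1) ^ a = 1 →
      (U = 1 ∧ a = 0) ∨ (U = -1 ∧ a = 1) := by
    intro U hU h
    have hne : ((-1 : ZMod 4)) ≠ 1 := by decide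
    rcases hU with rfl | rfl <;> rcases ha with rfl | rfl
    · exact Or.inl ⟨rfl, rfl⟩
    · exfalso
      rw [map_one, one_mul, pow_one] at h
      exact hne h
    · exfalso
      rw [map_neg, map_one, pow_zero, mul_one] at h
      exact hne h
    · exact Or.inr ⟨rfl, rfl⟩
  have hqsU : ∀ {U : OO}, ((U = 1 ∧ a = 0) ∨ (U = -1 ∧ a = 1)) → qs s7 U = (a : ZMod 2) ∧
      ¬ s7 ∣ U := by
    intro U h
    rcases h with ⟨rfl, h⟩ | ⟨rfl, h⟩
    · rw [h]
      refine ⟨?_, fun h => prime_s7.not_isUnit (isUnit_of_dvd_one h)⟩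
      rw [qs_zero.2 ⟨1, by simp⟩]
      simp
    · rw [h, qs7_neg_one]
      refine ⟨by simp, fun h => prime_s7.not_isUnit (isUnit_of_dvd_one ((dvd_neg).1 h))⟩
  have hϖa7 : ¬ s7 ∣ ϖ ^ a ∧ qs s7 (ϖ ^ a) = 0 := by
    refine ⟨fun h => hϖ7 (prime_s7.dvd_of_dvd_pow h), ?_⟩
    rcases ha with rfl | rfl
    · rw [pow_zero]
      exact qs_zero.2 ⟨1, by simp⟩
    · rw [pow_one]
      exact hϖ7s
  have h7prod : ∀ T : Finset (Fin n), ¬ s7 ∣ ∏ k ∈ T, q k := by
    intro T h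
    obtain ⟨j, -, h2⟩ := (prime_s7.dvd_finsetProd_iff _).1 h
    exact (hq j).s7_not h2
  have hval : ∀ {U : OO} (T : Finset (Fin n)), ((U = 1 ∧ a = 0) ∨ (U = -1 ∧ a = 1)) →
      Sqm s7 (U * ϖ ^ a * ∏ k ∈ T, q k) → (a : ZMod 2) + ∑ i ∈ T, qs s7 (q i) = 0 := by
    intro U T hU h
    obtain ⟨h1, h2⟩ := hqsU hU
    rw [← qs_zero, qs7_mul (fun h => (prime_s7.dvd_or_dvd h).elim h2 hϖa7.1) (h7prod T),
      qs7_mul h2 hϖa7.1, h1, hϖa7.2, add_zero, qs7_prod T q (fun i _ => (hq i).s7_not)] at h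
    exact h
  rcases hf with rfl | rfl
  · -- `√-7` does not divide `δ`
    rw [pow_zero, one_mul] at hδf
    have hδs : em hw4 u * (-1) ^ a = 1 := by
      rw [hδf, hδe, map_mul, map_mul, map_pow, hϖ4, hq4, mul_one] at hδ4
      exact hδ4
    have hU := hcase hu hδs
    have h7 : Sqm s7 δ := by
      rcases hloc7 with ⟨-, h⟩ | ⟨δ1, m1, h, -⟩
      · exact h
      · exfalso
        exact hδ7 ⟨δ1, by rw [← hδf, h]⟩
    rw [hδf, hδe] at h7
    obtain ⟨g1, g2⟩ := lin7 hq hinj hind hsum (a := (a : ZMod 2)) (T := S)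
      (fun i hi => by
        have := c1 i hi
        rw [Nat.cast_zero, zero_mul, add_zero] at this
        exact this)
      (fun i hi => by
        have := c2 i hi
        rw [Nat.cast_zero, zero_mul, zero_add] at this
        exact this) (hval S hU h7)
    left
    rcases hU with ⟨h1, h2⟩ | ⟨h1, h2⟩
    · rw [hδf, hδe, h1, h2, g2, Finset.prod_empty, pow_zero, mul_one, mul_one]
    · rw [h2] at g1
      exact absurd g1 (by decide)
  · -- `√-7` divides `δ`
    rw [pow_one] at hδf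
    have hδs : em hw4 (u * v) * (-1) ^ a = 1 := by
      rw [hδf, hδe, map_mul, map_mul, map_mul, map_pow, hϖ4, hq4, mul_one] at hδ4
      rw [hm', map_mul, map_mul, hq4, mul_one] at hm4
      rw [map_mul]
      have : em hw4 u * em hw4 v * (-1) ^ a =
          (em hw4 s7 * (em hw4 u * (-1) ^ a)) * (em hw4 v * em hw4 s7) := by
        linear_combination (-(em hw4 u * em hw4 v * (-1) ^ a)) * hs74
      rw [this, hδ4, hm4, one_mul]
    have hU := hcase huv hδs
    have h7 : Sqm s7 (u * v * ϖ ^ a * ∏ k ∈ Sᶜ, q k) := by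
      rcases hloc7 with ⟨h, -⟩ | ⟨δ1, m1, h1, h2, h3⟩
      · exact absurd ⟨δ', hδf⟩ h
      · have e1 : δ1 = u * ϖ ^ a * ∏ k ∈ S, q k := by
          apply mul_left_cancel₀ hs70
          rw [← h1, hδf, hδe]
        have e2 : m1 = v * ((∏ k ∈ S, q k) * ∏ k ∈ Sᶜ, q k) := by
          apply mul_left_cancel₀ hs70
          rw [← h2, hm', ← Finset.prod_mul_prod_compl S q]
          ring
        have e3 : δ1 * m1 = (u * v * ϖ ^ a * ∏ k ∈ Sᶜ, q k) * (∏ k ∈ S, q k) ^ 2 := by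
          rw [e1, e2]
          ring
        obtain ⟨-, n2⟩ := hqsU hU
        rw [e3, ← qs_zero, qs7_mul_sq (fun h => (prime_s7.dvd_or_dvd h).elim
          (fun h => (prime_s7.dvd_or_dvd h).elim n2 hϖa7.1) (h7prod _)) (h7prod S), qs_zero] at h3
        exact h3
    have h2x : ∀ x : ZMod 2, x + x = 0 := by decide
    obtain ⟨g1, g2⟩ := lin7 hq hinj hind hsum (a := (a : ZMod 2)) (T := Sᶜ)
      (fun i hi => by
        have := c2 i (by simpa using hi)
        rw [Nat.cast_one, one_mul, h2x, add_zero] at this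
        exact this)
      (fun i hi => by
        have := c1 i (by simpa using hi)
        rw [Nat.cast_one, one_mul] at this
        rwa [compl_compl]) (hval Sᶜ hU h7)
    right
    have hSu : S = Finset.univ := by
      rwa [Finset.compl_eq_empty_iff] at g2
    rcases hU with ⟨h1, h2⟩ | ⟨h1, h2⟩
    · rw [hδf, hδe, h2, hSu, hm', pow_zero, mul_one]
      have hv2 : v * v = 1 := by rcases hv with rfl | rfl <;> ring
      have huv' : u = v := by
        calc u = u * v * v := by rw [mul_assoc, hv2, mul_one]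
          _ = v := by rw [h1, one_mul]
      rw [huv']
      ring
    · rw [h2] at g1
      exact absurd g1 (by decide)

end alg

end Pool.Agent.R384
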