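import Pool.Agent.R384.Sel

/-!
# Cocycles on subgroups of index two
-/

set_option autoImplicit false
set_option linter.unusedSectionVars false

namespace Pool.Agent.R384

open Topology

variable {G : Type} [Group G] [TopologicalSpace G]

/-- a continuous cocycle on the subgroup `H` -/
structure CocOn (χ : G →* ℤ_[2]ˣ) (H : Subgroup G) (c : G → ℚ_[2]) : Prop where
  cont : ContinuousOn c H
  mul : ∀ σ ∈ H, ∀ τ ∈ H, c (σ * τ) = c σ + vl χ σ * c τ

/-- the character of order two as a character with values in `ℤ_2` -/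
noncomputable def sgc (ε : G →* ℤˣ) : G →* ℤ_[2]ˣ :=
  (Units.map (Int.castRingHom ℤ_[2]).toMonoidHom).comp ε

variable {χ : G →* ℤ_[2]ˣ} {ε : G →* ℤˣ} {c : G → ℚ_[2]}

lemma vl_inv (σ : G) : vl χ σ⁻¹ * vl χ σ = 1 := by rw [← vl_mul, inv_mul_cancel, vl_one]

lemma vl_inv' (σ : G) : vl χ σ * vl χ σ⁻¹ = 1 := by rw [← vl_mul, mul_inv_cancel, vl_one]

lemma vl_sgc_pos {σ : G} (h : ε σ = 1) : vl (χ * sgc ε) σ = vl χ σ := by
  unfold vl sgc
  simp [h]

lemma vl_sgc_neg {σ : G} (h : ε σ = -1) : vl (χ * sgc ε) σ = -vl χ σ := by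
  unfold vl sgc
  simp [h]

/-- the kernel of `ε` on the subgroup `G'` -/
def kr (ε : G →* ℤˣ) (G' : Subgroup G) : Subgroup G := G' ⊓ ε.ker

lemma mem_kr {G' : Subgroup G} {σ : G} : σ ∈ kr ε G' ↔ σ ∈ G' ∧ ε σ = 1 := Iff.rfl

lemma neg_of_not {G' : Subgroup G} {σ : G} (h : σ ∈ G') (h1 : σ ∉ kr ε G') : ε σ = -1 := by
  rcases Int.units_eq_one_or (ε σ) with h2 | h2
  · exact absurd (mem_kr.2 ⟨h, h2⟩) h1
  · exact h2

open Classical in
/-- the corestriction -/
noncomputable def cor (χ : G →* ℤ_[2]ˣ) (ε : G →* ℤˣ) (t : G) (c : G → ℚ_[2]) (g : G) : ℚ_[2] :=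
  if ε g = 1 then c g + vl χ t * c (t⁻¹ * g * t) else c (g * t) + vl χ t * c (t⁻¹ * g)

section

variable {G' : Subgroup G} {t : G} (ht : t ∈ G') (hε : ε t = -1)

include hε in
lemma eps_inv : ε t⁻¹ = -1 := by rw [map_inv, hε]; rfl

include ht hε

lemma conj_kr {g : G} (hg : g ∈ kr ε G') : t⁻¹ * g * t ∈ kr ε G' := by
  obtain ⟨h1, h2⟩ := mem_kr.1 hg
  refine mem_kr.2 ⟨G'.mul_mem (G'.mul_mem (G'.inv_mem ht) h1) ht, ?_⟩
  rw [map_mul, map_mul, eps_inv hε, h2, hε]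
  rfl

lemma mul_kr {g : G} (hg : g ∈ G') (h : ε g = -1) : g * t ∈ kr ε G' := by
  refine mem_kr.2 ⟨G'.mul_mem hg ht, ?_⟩
  rw [map_mul, h, hε]
  rfl

lemma kr_mul {g : G} (hg : g ∈ G') (h : ε g = -1) : t⁻¹ * g ∈ kr ε G' := by
  refine mem_kr.2 ⟨G'.mul_mem (G'.inv_mem ht) hg, ?_⟩
  rw [map_mul, eps_inv hε, h]
  rfl

lemma cor_mul (hc : ∀ σ ∈ kr ε G', ∀ τ ∈ kr ε G', c (σ * τ) = c σ + vl χ σ * c τ) {g h : G}
    (hg : g ∈ G') (hh : h ∈ G') : cor χ ε t c (g * h) = cor χ ε t c g + vl χ g * cor χ ε t c h := by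
  have n1 : (-1 : ℤˣ) ≠ 1 := by decide
  rcases Int.units_eq_one_or (ε g) with h1 | h1 <;> rcases Int.units_eq_one_or (ε h) with h2 | h2
  · have h3 : ε (g * h) = 1 := by rw [map_mul, h1, h2, mul_one]
    unfold cor
    rw [if_pos h3, if_pos h1, if_pos h2]
    have hg' : g ∈ kr ε G' := mem_kr.2 ⟨hg, h1⟩
    have hh' : h ∈ kr ε G' := mem_kr.2 ⟨hh, h2⟩
    have e : t⁻¹ * (g * h) * t = (t⁻¹ * g * t) * (t⁻¹ * h * t) := by group
    rw [e, hc g hg' h hh', hc _ (conj_kr ht hε hg') _ (conj_kr ht hε hh')]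
    have e2 : vl χ (t⁻¹ * g * t) = vl χ g := by
      rw [vl_mul, vl_mul]
      linear_combination vl χ g * vl_inv (χ := χ) t
    rw [e2]
    ring
  · have h3 : ε (g * h) = -1 := by rw [map_mul, h1, h2, one_mul]
    unfold cor
    rw [if_neg (by rw [h3]; exact n1), if_pos h1, if_neg (by rw [h2]; exact n1)]
    have hg' : g ∈ kr ε G' := mem_kr.2 ⟨hg, h1⟩
    have e : t⁻¹ * (g * h) = (t⁻¹ * g * t) * (t⁻¹ * h) := by group
    rw [mul_assoc g h t, hc g hg' _ (mul_kr ht hε hh h2), e, hc _ (conj_kr ht hε hg') _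
      (kr_mul ht hε hh h2)]
    have e2 : vl χ (t⁻¹ * g * t) = vl χ g := by
      rw [vl_mul, vl_mul]
      linear_combination vl χ g * vl_inv (χ := χ) t
    rw [e2]
    ring
  · have h3 : ε (g * h) = -1 := by rw [map_mul, h1, h2, mul_one]
    unfold cor
    rw [if_neg (by rw [h3]; exact n1), if_neg (by rw [h1]; exact n1), if_pos h2]
    have hh' : h ∈ kr ε G' := mem_kr.2 ⟨hh, h2⟩
    have e : g * h * t = (g * t) * (t⁻¹ * h * t) := by group
    have e' : t⁻¹ * (g * h) = (t⁻¹ * g) * h := by group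
    rw [e, e', hc _ (mul_kr ht hε hg h1) _ (conj_kr ht hε hh'), hc _ (kr_mul ht hε hg h1) _ hh',
      vl_mul, vl_mul]
    linear_combination (vl χ g * c h) * vl_inv (χ := χ) t
  · have h3 : ε (g * h) = 1 := by rw [map_mul, h1, h2]; rfl
    unfold cor
    rw [if_pos h3, if_neg (by rw [h1]; exact n1), if_neg (by rw [h2]; exact n1)]
    have e : g * h = (g * t) * (t⁻¹ * h) := by group
    have e' : t⁻¹ * (g * h) * t = (t⁻¹ * g) * (h * t) := by group
    rw [e', e, hc _ (mul_kr ht hε hg h1) _ (kr_mul ht hε hh h2), hc _ (kr_mul ht hε hg h1) _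
      (mul_kr ht hε hh h2), vl_mul, vl_mul]
    linear_combination (vl χ g * c (h * t)) * vl_inv (χ := χ) t

lemma cor_cont [IsTopologicalGroup G] (hop : ∀ u : ℤˣ, IsOpen {g | ε g = u})
    (hc : ContinuousOn c (kr ε G')) : ContinuousOn (cor χ ε t c) G' := by
  intro g hg
  have n1 : (-1 : ℤˣ) ≠ 1 := by decide
  have hcj : ∀ (f : G → G) (hf : Continuous f) (u : ℤˣ), ε g = u →
      (∀ x ∈ G', ε x = u → f x ∈ kr ε G') → ContinuousWithinAt (fun x => c (f x)) G' g := by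
    intro f hf u hu hm
    have h1 : ContinuousWithinAt (fun x => c (f x)) (G' ∩ {x | ε x = u}) g := by
      have h2 : ContinuousOn (fun x => c (f x)) (G' ∩ {x | ε x = u}) :=
        hc.comp hf.continuousOn fun x hx => hm x hx.1 hx.2
      exact h2 g ⟨hg, hu⟩
    exact (continuousWithinAt_inter ((hop u).mem_nhds hu)).1 h1
  rcases Int.units_eq_one_or (ε g) with h1 | h1
  · have h2 : ContinuousWithinAt (fun x => c x + vl χ t * c (t⁻¹ * x * t)) G' g :=
      (hcj (fun x => x) continuous_id 1 h1 fun x hx hx1 => mem_kr.2 ⟨hx, hx1⟩).add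
        ((hcj (fun x => t⁻¹ * x * t) (by fun_prop) 1 h1 fun x hx hx1 =>
          conj_kr ht hε (mem_kr.2 ⟨hx, hx1⟩)).const_smul (vl χ t))
    refine h2.congr_of_eventuallyEq ?_ ?_
    · filter_upwards [mem_nhdsWithin_of_mem_nhds ((hop 1).mem_nhds h1)] with x hx
      exact if_pos hx
    · exact if_pos h1
  · have h2 : ContinuousWithinAt (fun x => c (x * t) + vl χ t * c (t⁻¹ * x)) G' g :=
      (hcj (fun x => x * t) (by fun_prop) (-1) h1 fun x hx hx1 => mul_kr ht hε hx hx1).add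
        ((hcj (fun x => t⁻¹ * x) (by fun_prop) (-1) h1 fun x hx hx1 =>
          kr_mul ht hε hx hx1).const_smul (vl χ t))
    refine h2.congr_of_eventuallyEq ?_ ?_
    · filter_upwards [mem_nhdsWithin_of_mem_nhds ((hop (-1)).mem_nhds h1)] with x hx
      have hx' : ε x = -1 := hx
      exact if_neg (by rw [hx']; exact n1)
    · exact if_neg (by rw [h1]; exact n1)

end

/-- restriction to a subgroup of index two is injective -/
lemma ext_two {I : Subgroup G} {a : G → ℚ_[2]}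
    (ha : ∀ σ ∈ I, ∀ τ ∈ I, a (σ * τ) = a σ + vl χ σ * a τ)
    {y : ℚ_[2]} (hy : ∀ σ ∈ kr ε I, a σ = (vl χ σ - 1) * y) :
    ∃ z : ℚ_[2], ∀ σ ∈ I, a σ = (vl χ σ - 1) * z := by
  by_cases hI : ∃ t ∈ I, ε t = -1
  · obtain ⟨t, ht, hε⟩ := hI
    have hti := I.inv_mem ht
    have h1 : a 1 = 0 := by
      have h := ha 1 I.one_mem 1 I.one_mem
      rw [mul_one, vl_one, one_mul] at h
      exact left_eq_add.1 h
    set F : G → ℚ_[2] := fun x => vl χ x * y - a x with hF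
    have hinv : ∀ x ∈ I, ∀ j ∈ kr ε I, F (x * j) = F x := by
      intro x hx j hj
      simp only [hF]
      rw [ha x hx j (mem_kr.1 hj).1, vl_mul, hy j hj]
      ring
    have hF1 : F 1 = y := by
      simp only [hF]
      rw [h1, vl_one]
      ring
    have hcoc : ∀ g ∈ I, ∀ x ∈ I, F (g * x) = vl χ g * F x - a g := by
      intro g hg x hx
      simp only [hF]
      rw [ha g hg x hx, vl_mul]
      ring
    refine ⟨(F 1 + F t) / 2, fun g hg => ?_⟩
    have hsum : F g + F (g * t) = F 1 + F t := by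
      rcases Int.units_eq_one_or (ε g) with h2 | h2
      · have e1 : F g = F 1 := by
          have := hinv 1 I.one_mem g (mem_kr.2 ⟨hg, h2⟩)
          rwa [one_mul] at this
        have e2 : F (g * t) = F t := by
          have := hinv t ht (t⁻¹ * g * t) (conj_kr ht hε (mem_kr.2 ⟨hg, h2⟩))
          rwa [show t * (t⁻¹ * g * t) = g * t by group] at this
        rw [e1, e2]
      · have e1 : F g = F t := by
          have := hinv t ht (t⁻¹ * g) (kr_mul ht hε hg h2)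
          rwa [show t * (t⁻¹ * g) = g by group] at this
        have e2 : F (g * t) = F 1 := by
          have := hinv 1 I.one_mem (g * t) (mul_kr ht hε hg h2)
          rwa [one_mul] at this
        rw [e1, e2]
        ring
    have e3 := hcoc g hg 1 I.one_mem
    have e4 := hcoc g hg t ht
    rw [mul_one] at e3
    rw [e3, e4] at hsum
    have h2 : (2 : ℚ_[2]) ≠ 0 := two_ne_zero
    field_simp
    linear_combination (-1 : ℚ_[2]) * hsum
  · push Not at hI
    refine ⟨y, fun σ hσ => hy σ (mem_kr.2 ⟨hσ, ?_⟩)⟩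
    rcases Int.units_eq_one_or (ε σ) with h | h
    · exact h
    · exact absurd h (hI σ hσ)

/-- the corestriction is locally trivial -/
lemma cor_loc {G' I : Subgroup G} {t : G} (ht : t ∈ G') (hε : ε t = -1)
    (hc : ∀ σ ∈ kr ε G', ∀ τ ∈ kr ε G', c (σ * τ) = c σ + vl χ σ * c τ)
    {y y' : ℚ_[2]} (hy : ∀ σ ∈ I, σ ∈ kr ε G' → c σ = (vl χ σ - 1) * y)
    (hy' : ∀ σ ∈ I, σ ∈ kr ε G' → c (t⁻¹ * σ * t) = (vl χ σ - 1) * y') :
    ∃ z : ℚ_[2], ∀ σ ∈ I, σ ∈ G' → cor χ ε t c σ = (vl χ σ - 1) * z := by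
  have h1 := ext_two (χ := χ) (ε := ε) (I := I ⊓ G') (a := cor χ ε t c)
    (fun σ hσ τ hτ => cor_mul ht hε hc hσ.2 hτ.2) (y := y + vl χ t * y') (fun σ hσ => by
      have h2 : ε σ = 1 := (mem_kr.1 hσ).2
      have h3 : σ ∈ kr ε G' := mem_kr.2 ⟨(mem_kr.1 hσ).1.2, h2⟩
      unfold cor
      rw [if_pos h2, hy σ (mem_kr.1 hσ).1.1 h3, hy' σ (mem_kr.1 hσ).1.1 h3]
      ring)
  obtain ⟨z, hz⟩ := h1
  exact ⟨z, fun σ h2 h3 => hz σ ⟨h2, h3⟩⟩

end Pool.Agent.R384
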