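import Pool.Agent.R384.X.S7

/-!
# The primes of `ℤ[ω]` above the rational primes
-/

set_option autoImplicit false
set_option linter.unusedSectionVars false

namespace Pool.Agent.R384

open QuadraticAlgebra

open scoped NumberTheorySymbols Classical

/-- the split primes -/
structure Sp7 (p : ℕ) : Prop where
  pr : p.Prime
  eight : p % 8 = 1
  seven : p % 7 = 1 ∨ p % 7 = 2 ∨ p % 7 = 4

/-- the inert primes -/
structure In7 (l : ℕ) : Prop where
  pr : l.Prime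
  eight : l % 8 = 5
  seven : l % 7 = 3 ∨ l % 7 = 5 ∨ l % 7 = 6

lemma jac7_rec {P : ℕ} (h4 : P % 4 = 1) : J(7 | P) = J(((P % 7 : ℕ) : ℤ) | 7) := by
  have h1 : J(((7 : ℕ) : ℤ) | P) = J((P : ℤ) | 7) :=
    jacobiSym.quadratic_reciprocity_one_mod_four' (by decide) h4
  have h2 : J((P : ℤ) | 7) = J(((P % 7 : ℕ) : ℤ) | 7) := by
    rw [jacobiSym.mod_left]
    have : ((P : ℤ)) % ((7 : ℕ) : ℤ) = ((P % 7 : ℕ) : ℤ) := by push_cast; rfl
    rw [this]
  rw [h2] at h1
  exact_mod_cast h1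

lemma jac_neg7 {P : ℕ} (h4 : P % 4 = 1) : J(-7 | P) = J(7 | P) := by
  have ho : Odd P := Nat.odd_iff.2 (by omega)
  rw [jacobiSym.neg _ ho, ZMod.χ₄_nat_one_mod_four h4, one_mul]

lemma Sp7.jac {p : ℕ} (h : Sp7 p) : J(-7 | p) = 1 := by
  have h4 : p % 4 = 1 := by have := h.eight; omega
  rw [jac_neg7 h4, jac7_rec h4]
  rcases h.seven with h7 | h7 | h7 <;> rw [h7] <;> norm_num

lemma In7.jac {l : ℕ} (h : In7 l) : J(7 | l) = -1 := by
  have h4 : l % 4 = 1 := by have := h.eight; omega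
  rw [jac7_rec h4]
  rcases h.seven with h7 | h7 | h7 <;> rw [h7] <;> norm_num

lemma In7.prime {l : ℕ} (h : In7 l) : Prime ((l : ℤ) : OO) := by
  have : Fact l.Prime := ⟨h.pr⟩
  have h4 : l % 4 = 1 := by have := h.eight; omega
  exact inert_prime (by rw [jac_neg7 h4, h.jac])

lemma In7.Pr {l : ℕ} (h : In7 l) : Pr ((l : ℤ) : OO) := by
  refine ⟨h.prime, four_dvd ?_ ?_⟩
  · simp
    have := h.eight
    omega
  · simp

/-- primes of norm `P` -/
lemma exists_norm7 {P : ℕ} (hP : P.Prime) (h4 : P % 4 = 1) (hJ : J(-7 | P) = 1) :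
    ∃ q : OO, Pr q ∧ nn q = P := by
  have : Fact P.Prime := ⟨hP⟩
  have hP7 : ¬ ((P : ℤ)) ∣ (-7 : ℤ) := by
    intro h
    rw [dvd_neg] at h
    have h7 : P = 7 := (Nat.prime_dvd_prime_iff_eq hP (by norm_num)).1 (by exact_mod_cast h)
    omega
  have hnp : ¬ Prime ((P : ℤ) : OO) := by
    intro hpr
    rw [← jacobiSym.legendreSym.to_jacobiSym, legendreSym.eq_one_iff _
      (by rwa [Ne, ZMod.intCast_zmod_eq_zero_iff_dvd])] at hJ
    obtain ⟨c, hc⟩ := hJ
    have h1 : (P : ℤ) ∣ nn (⟨(c.val : ℤ) - 1, 2⟩ : OO) := by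
      rw [← ZMod.intCast_zmod_eq_zero_iff_dvd]
      simp only [nn]
      push_cast
      rw [ZMod.natCast_zmod_val]
      push_cast at hc
      linear_combination -hc
    rw [← inert_nn (l := P) (e := (P : ℤ)) (Or.inl rfl) hpr, int_dvd] at h1
    have h2 : (P : ℤ) ∣ 2 := h1.2
    have h3 : P ∣ 2 := by exact_mod_cast h2
    have := (Nat.prime_dvd_prime_iff_eq hP Nat.prime_two).1 h3
    omega
  have hu : ¬ IsUnit ((P : ℤ) : OO) := by
    intro h1
    rw [unit_iff, nn_int] at h1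
    have h2 : P ^ 2 = 1 := by exact_mod_cast h1
    have h3 : 1 < P := hP.one_lt
    nlinarith
  have h0 : ((P : ℤ) : OO) ≠ 0 := by
    intro h1
    have h2 := congrArg nn h1
    rw [nn_int, nn_zero_iff.2 rfl] at h2
    have h3 : (P : ℤ) = 0 := pow_eq_zero_iff two_ne_zero |>.1 h2
    have : P = 0 := by exact_mod_cast h3
    exact hP.ne_zero this
  obtain ⟨π, hπ, hd⟩ := WfDvdMonoid.exists_irreducible_factor hu h0
  have hπp := hπ.prime
  obtain ⟨t, ht⟩ := hd
  have hn : nn π * nn t = P ^ 2 := by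
    rw [← nn_mul, ← ht, nn_int]
  rcases exists_type hπp with ⟨p, hp, hpn⟩ | ⟨l', hl', hq⟩
  · have h1 : p ∣ P := by
      have h2 : (p : ℤ) ∣ P ^ 2 := by rw [← hn, hpn]; exact Dvd.intro _ rfl
      have h3 : p ∣ P ^ 2 := by exact_mod_cast h2
      exact hp.dvd_of_dvd_pow h3
    have h2 : p = P := (Nat.prime_dvd_prime_iff_eq hp hP).1 h1
    subst h2
    rcases pr_sign hπp hpn h4 with h3 | h3
    · exact ⟨π, h3, hpn⟩
    · have h4 : nn (-π) = p := by
        rw [← hpn]; simp only [nn, re_neg, im_neg]; ring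
      exact ⟨-π, h3, h4⟩
  · exfalso
    have h1 : nn π = l' ^ 2 := by
      rcases hq with h | h
      · rw [h, nn_int]
      · rw [h, nn_int, neg_sq]
    have h2 : l' ∣ P := by
      have h3 : (l' : ℤ) ^ 2 ∣ P ^ 2 := by rw [← hn, h1]; exact Dvd.intro _ rfl
      have h4 : l' ^ 2 ∣ P ^ 2 := by exact_mod_cast h3
      exact (Nat.pow_dvd_pow_iff two_ne_zero).1 h4
    have h3 : l' = P := (Nat.prime_dvd_prime_iff_eq hl' hP).1 h2
    rw [h3] at hq
    apply hnp
    rcases hq with h4 | h4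
    · rw [← h4]; exact hπp
    · have : ((P : ℤ) : OO) = -π := by
        rw [h4]; push_cast; ring
      rw [this]
      exact hπp.neg

/-- a prime of norm `p` -/
noncomputable def pe (p : ℕ) : OO := if h : ∃ π : OO, Pr π ∧ nn π = p then h.choose else 1

lemma pe_spec {p : ℕ} (h : Sp7 p) : Pr (pe p) ∧ nn (pe p) = p := by
  have h1 : ∃ π : OO, Pr π ∧ nn π = p := exists_norm7 h.pr (by have := h.eight; omega) h.jac
  unfold pe
  rw [dif_pos h1]
  exact h1.choose_spec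

/-! ### Symbols -/

lemma cj_s7 : cj s7 = -s7 := by
  ext <;> simp [cj, s7]

lemma cj_int (n : ℤ) : cj (n : OO) = (n : OO) := by
  ext <;> simp [cj]

lemma qs_cj (q x : OO) : qs (cj q) (cj x) = qs q x := qs_eq sqm_cj

lemma qs_neg {q x : OO} (hq : Pr q) (hx : ¬ q ∣ x) : qs q (-x) = qs q x := by
  have h1 : ¬ q ∣ (-1 : OO) := by
    rw [dvd_neg]
    exact fun h => hq.prime.not_isUnit (isUnit_of_dvd_one h)
  have e : -x = (-1) * x := by ring
  rw [e, qs_mul hq h1 hx, neg_one_symb hq, zero_add]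

lemma qs_cj_s7 {q : OO} (hq : Pr q) : qs (cj q) s7 = qs q s7 := by
  have h1 := qs_cj q (-s7)
  have e : cj (-s7) = s7 := by
    ext <;> simp [cj, s7]
  rw [e, qs_neg hq hq.not_s7] at h1
  exact h1

lemma qs_in {l : ℕ} (h : In7 l) : qs ((l : ℤ) : OO) s7 = 1 := by
  have Fl : Fact l.Prime := ⟨h.pr⟩
  have h01 : ∀ a : ZMod 2, ¬ a = 0 → a = 1 := by decide
  apply h01
  have h8 := h.eight
  rw [qs_zero, inert_symb (Or.inl rfl) (by rintro rfl; omega) h.prime (by omega) h.Pr.not_s7,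
    nn_s7, h.jac]
  norm_num

lemma qs_ii {l l' : ℕ} (h : In7 l) (h' : In7 l') (hne : l ≠ l') :
    qs ((l : ℤ) : OO) ((l' : ℤ) : OO) = 0 := by
  have Fl : Fact l.Prime := ⟨h.pr⟩
  have h8 := h.eight
  refine recip_ii h.Pr h'.Pr ?_ (by rintro rfl; omega) (Or.inl rfl) (by omega) rfl rfl
  intro h1
  have h2 := congrArg QuadraticAlgebra.re h1
  simp at h2
  exact hne h2

/-- nonsquares -/
noncomputable def nq7 (p m : ℕ) : ZMod 2 := if IsSquare (m : ZMod p) then 0 else 1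

/-- `-7` is not a fourth power -/
noncomputable def n47 (p : ℕ) : ZMod 2 := if ∃ y : ZMod p, y ^ 4 = -7 then 0 else 1

lemma qs_nq {p m : ℕ} (hp : p.Prime) {π : OO} (hπ : Prime π) (hn : nn π = p) (hm : ¬ p ∣ m) :
    qs π ((m : ℤ) : OO) = nq7 p m := by
  have Fp : Fact p.Prime := ⟨hp⟩
  have hnd : ¬ (p : ℤ) ∣ (m : ℤ) := fun h => hm (by exact_mod_cast h)
  have h1 := split_int hπ hn hnd
  rw [← jacobiSym.legendreSym.to_jacobiSym, legendreSym.eq_one_iff _
    (by rwa [Ne, ZMod.intCast_zmod_eq_zero_iff_dvd])] at h1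
  unfold qs nq7
  rw [h1]
  push_cast
  split_ifs <;> rfl

/-- integers represent the residue classes -/
lemma exists_rep7 {p : ℕ} (hp : p.Prime) {π : OO} (hπ : Prime π) (hn : nn π = p) (y : OO) :
    ∃ n : ℤ, π ∣ y - (n : OO) := by
  have Fp : Fact p.Prime := ⟨hp⟩
  have hd := split_not_dvd_im hπ hn
  have hd' : (π.im : ZMod p) ≠ 0 := by
    rw [Ne, ZMod.intCast_zmod_eq_zero_iff_dvd]
    exact hd
  set u : ℤ := ((π.im : ZMod p)⁻¹.val : ℤ) with hu
  have h1 : (p : ℤ) ∣ 1 - u * π.im := by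
    rw [← ZMod.intCast_zmod_eq_zero_iff_dvd]
    push_cast
    rw [hu]
    push_cast
    rw [ZMod.natCast_zmod_val, inv_mul_cancel₀ hd', sub_self]
  have h2 := (split_dvd hπ hn _).2 h1
  set k : ℤ := π.im * y.re - π.re * y.im with hk
  have h3 : π ∣ (π.im : OO) * y - (k : OO) := by
    refine ⟨(y.im : OO), ?_⟩
    ext
    · simp [hk]
    · simp [hk]
  refine ⟨u * k, ?_⟩
  have e : y - ((u * k : ℤ) : OO) = ((1 - u * π.im : ℤ) : OO) * y +
      (u : OO) * ((π.im : OO) * y - (k : OO)) := by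
    push_cast
    ring
  rw [e]
  exact dvd_add (Dvd.dvd.mul_right h2 _) (Dvd.dvd.mul_left h3 _)

lemma qs_n4 {p : ℕ} (hp : p.Prime) {π : OO} (hπ : Pr π) (hn : nn π = p) :
    qs π s7 = n47 p := by
  have Fp : Fact p.Prime := ⟨hp⟩
  have key : Sqm π s7 ↔ ∃ y : ZMod p, y ^ 4 = -7 := by
    constructor
    · rintro ⟨y, hy⟩
      obtain ⟨n, hn'⟩ := exists_rep7 hp hπ.prime hn y
      have h1 : π ∣ s7 - (n : OO) ^ 2 := by
        have e : s7 - (n : OO) ^ 2 = (s7 - y ^ 2) + (y - (n : OO)) * (y + (n : OO)) := by ring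
        rw [e]
        exact dvd_add hy (Dvd.dvd.mul_right hn' _)
      have h2 : π ∣ ((n ^ 4 + 7 : ℤ) : OO) := by
        have e : ((n ^ 4 + 7 : ℤ) : OO) = (s7 - (n : OO) ^ 2) * -(s7 + (n : OO) ^ 2) := by
          push_cast
          linear_combination s7_sq
        rw [e]
        exact Dvd.dvd.mul_right h1 _
      rw [split_dvd hπ.prime hn, ← ZMod.intCast_zmod_eq_zero_iff_dvd] at h2
      refine ⟨(n : ZMod p), ?_⟩
      push_cast at h2
      linear_combination h2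
    · rintro ⟨y, hy⟩
      have h1 : (p : ℤ) ∣ (y.val : ℤ) ^ 4 + 7 := by
        rw [← ZMod.intCast_zmod_eq_zero_iff_dvd]
        push_cast
        rw [ZMod.natCast_zmod_val, hy]
        ring
      have h2 := (split_dvd hπ.prime hn _).2 h1
      set n : ℤ := (y.val : ℤ) with hn'
      have e : (((n ^ 4 + 7 : ℤ)) : OO) = (s7 - (n : OO) ^ 2) * -(s7 + (n : OO) ^ 2) := by
        push_cast
        linear_combination s7_sq
      rw [e] at h2
      rcases hπ.prime.dvd_or_dvd h2 with h3 | h3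
      · exact ⟨(n : OO), h3⟩
      · rw [dvd_neg] at h3
        obtain ⟨i, hi⟩ := qs_zero.1 (neg_one_symb hπ)
        refine ⟨i * (n : OO), ?_⟩
        have e : s7 - (i * (n : OO)) ^ 2 = (s7 + (n : OO) ^ 2) + (-1 - i ^ 2) * (n : OO) ^ 2 := by
          ring
        rw [e]
        exact dvd_add h3 (Dvd.dvd.mul_right hi _)
  unfold qs n47
  rw [key]

lemma sp_not_dvd {p m : ℕ} {π : OO} (hn : nn π = p) {x : OO}
    (hx : nn x = m) (hm : ¬ p ∣ m) : ¬ π ∣ x := by
  rintro ⟨t, ht⟩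
  apply hm
  have h1 : (p : ℤ) ∣ m := by
    rw [← hx, ht, nn_mul, hn]
    exact Dvd.intro _ rfl
  exact_mod_cast h1

lemma qs_pp {p p' : ℕ} (hp : Sp7 p) (hp' : Sp7 p') (hne : p ≠ p') :
    qs (pe p) (pe p') + qs (pe p) (cj (pe p')) = nq7 p p' := by
  obtain ⟨h1, h2⟩ := pe_spec hp
  obtain ⟨h3, h4⟩ := pe_spec hp'
  have hnd : ¬ p ∣ p' := fun h => hne ((Nat.prime_dvd_prime_iff_eq hp.pr hp'.pr).1 h)
  rw [← qs_mul h1 (sp_not_dvd h2 h4 hnd)
    (sp_not_dvd h2 (by rw [nn_cj]; exact h4) hnd), mul_cj, h4,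
    ← qs_nq hp.pr h1.prime h2 hnd]

end Pool.Agent.R384
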