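import Pool.Agent.R384.X.S7
import Pool.Agent.R384.End

/-!
# The place `√-7`
-/

set_option autoImplicit false
set_option linter.unusedSectionVars false

namespace Pool.Agent.R384

open Pool.Agent.Y715.Red Pool.Agent.Y715.Nr Pool.Agent.W237.RK
open Pool.Agent.Y715.Gi (QB KK GK i₀_mem gk_fix)
open Pool.Agent.Y715.Df (Cmp exists_cmp)
open Pool.Agent.Y715.Lc (norm_two_odd)

section seven

variable [hf : Fact (Nat.Prime 7)] {w : PadicAlgCl 7} (hw : w ^ 2 = w - 2)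

lemma norm_seven : ‖(7 : PadicAlgCl 7)‖ = 1 / 7 := by
  have h : (7 : PadicAlgCl 7) = algebraMap ℚ_[7] (PadicAlgCl 7) 7 := by rw [map_ofNat]
  rw [h]
  have h2 := PadicAlgCl.norm_extends 7 (7 : ℚ_[7])
  have h3 : ‖(7 : ℚ_[7])‖ = 1 / 7 := by
    have := Padic.norm_p (p := 7)
    simpa using this
  rw [← h3]
  exact h2

include hw in
lemma norm_rt7 : ‖2 * w - 1‖ ^ 2 = 1 / 7 := by
  have h1 : (2 * w - 1) ^ 2 = -(7 : PadicAlgCl 7) := by linear_combination 4 * hw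
  rw [← norm_pow, h1, norm_neg, norm_seven]

/-- the norms of the elements of `ℚ_7` -/
lemma norm_gap {x : ℚ_[7]} (h : ‖x‖ < 7) : ‖x‖ ≤ 1 := by
  by_cases h0 : x = 0
  · rw [h0, norm_zero]
    exact zero_le_one
  · obtain ⟨n, hn⟩ := Padic.padicNormE.image h0
    have hn' : ‖x‖ = (7 : ℝ) ^ (-n) := by
      rw [hn]
      norm_num
    rw [hn'] at h ⊢
    have h1 : -n < 1 := by
      by_contra hcon
      push Not at hcon
      have := zpow_le_zpow_right₀ (a := (7 : ℝ)) (by norm_num) hcon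
      rw [zpow_one] at this
      linarith
    calc (7 : ℝ) ^ (-n) ≤ 7 ^ (0 : ℤ) := zpow_le_zpow_right₀ (by norm_num) (by omega)
      _ = 1 := zpow_zero _

include hw in
/-- the residue field -/
theorem residue7 {y : PadicAlgCl 7} (hy : ‖y‖ ≤ 1) (h : ∀ τ : Au 7, τ w = w → τ y = y) :
    ∃ a : ℤ, ‖y - a‖ < 1 := by
  by_cases hall : ∀ τ : Au 7, τ y = y
  · exact near hy hall
  · push Not at hall
    obtain ⟨t, hty⟩ := hall
    have h2 : ‖(2 : PadicAlgCl 7)‖ = 1 := norm_two_odd (by norm_num)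
    have htI : t w = 1 - w := by
      rcases w_or hw t with h1 | h1
      · exact absurd (h t h1) hty
      · exact h1
    have htI' : t⁻¹ w = 1 - w := by
      have := congrArg (t⁻¹ : Au 7) htI
      rw [← AlgEquiv.mul_apply, inv_mul_cancel, AlgEquiv.one_apply, map_sub, map_one] at this
      linear_combination this
    have key : ∀ τ : Au 7, τ w = 1 - w → τ y = t y := by
      intro τ hτI
      have h1 : (t⁻¹ * τ) y = y := by
        apply h
        rw [AlgEquiv.mul_apply, hτI, map_sub, map_one, htI']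
        ring
      have h2 := congrArg t h1
      rw [← AlgEquiv.mul_apply, ← mul_assoc, mul_inv_cancel, one_mul] at h2
      exact h2
    have hc1 : ∀ τ : Au 7, τ w = w → τ (t y) = t y := by
      intro τ h1
      have h3 := key (τ * t) (by rw [AlgEquiv.mul_apply, htI, map_sub, map_one, h1])
      rwa [AlgEquiv.mul_apply] at h3
    have hc2 : ∀ τ : Au 7, τ w = 1 - w → τ (t y) = y := by
      intro τ h1
      have h3 := h (τ * t) (by rw [AlgEquiv.mul_apply, htI, map_sub, map_one, h1]; ring)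
      rwa [AlgEquiv.mul_apply] at h3
    have h20 : (2 : PadicAlgCl 7) ≠ 0 := by
      intro h0
      rw [h0, norm_zero] at h2
      exact zero_ne_one h2
    have hI1 := norm_rt7 hw
    have hI0 : 2 * w - 1 ≠ 0 := by
      intro h0
      rw [h0, norm_zero] at hI1
      norm_num at hI1
    have hty1 : ‖t y‖ ≤ 1 := by rwa [nrm]
    obtain ⟨a, ha⟩ := near (x := (y + t y) / 2) (by
      rw [norm_div, h2, div_one]
      exact add_le hy hty1) (by
      intro τ
      rw [map_div₀, map_add, map_ofNat]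
      rcases w_or hw τ with h1 | h1
      · rw [h τ h1, hc1 τ h1]
      · rw [key τ h1, hc2 τ h1, add_comm])
    obtain ⟨b, hb⟩ := fix_mem (x := (y - t y) / (2 * (2 * w - 1))) (by
      intro τ
      rw [map_div₀, map_sub, map_mul, map_sub, map_mul, map_ofNat, map_one]
      rcases w_or hw τ with h1 | h1
      · rw [h τ h1, hc1 τ h1, h1]
      · rw [key τ h1, hc2 τ h1, h1]
        have e : (2 : PadicAlgCl 7) * (2 * (1 - w) - 1) = -(2 * (2 * w - 1)) := by ring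
        rw [e, div_neg, ← neg_div, neg_sub])
    have hs : ‖2 * w - 1‖ < 1 := by nlinarith [norm_nonneg (2 * w - 1)]
    have hs' : 1 / 7 < ‖2 * w - 1‖ := by
      by_contra hcon
      push Not at hcon
      nlinarith [norm_nonneg (2 * w - 1)]
    have hbn : ‖b‖ ≤ 1 := by
      apply norm_gap
      rw [← PadicAlgCl.norm_extends 7 b]
      have e : ‖(algebraMap ℚ_[7] (PadicAlgCl 7)) b‖ * ‖2 * w - 1‖ ≤ 1 := by
        rw [hb, norm_div, norm_mul, h2, one_mul, div_mul_cancel₀ _ (norm_ne_zero_iff.2 hI0)]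
        exact sub_le hy hty1
      have e2 : ‖(algebraMap ℚ_[7] (PadicAlgCl 7)) b‖ < 7 := by
        by_contra hcon
        push Not at hcon
        nlinarith
      exact e2
    refine ⟨a, ?_⟩
    have e : y - (a : PadicAlgCl 7) =
        ((y + t y) / 2 - a) + ((y - t y) / (2 * (2 * w - 1))) * (2 * w - 1) := by
      field_simp
      ring
    rw [e]
    refine add_lt ha ?_
    rw [norm_mul, ← hb]
    have hb2 : ‖(algebraMap ℚ_[7] (PadicAlgCl 7)) b‖ ≤ 1 := by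
      have := PadicAlgCl.norm_extends 7 b
      rw [← this] at hbn
      exact hbn
    calc ‖(algebraMap ℚ_[7] (PadicAlgCl 7)) b‖ * ‖2 * w - 1‖ ≤ 1 * ‖2 * w - 1‖ :=
          mul_le_mul_of_nonneg_right hb2 (norm_nonneg _)
      _ < 1 := by rwa [one_mul]

/-- squares -/
lemma resid7 (hl : ‖em hw s7‖ < 1) {x : OO}
    {y : PadicAlgCl 7} (hy : y ^ 2 = em hw x) (hfix : ∀ τ : Au 7, τ w = w → τ y = y) :
    Sqm s7 x := by
  have hy1 : ‖y‖ ≤ 1 := by
    apply Pool.Agent.Y715.Red.sq_le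
    rw [hy]
    exact em_le hw x
  obtain ⟨a, hab⟩ := residue7 hw hy1 hfix
  refine ⟨(a : OO), (dvd_iff hw prime_s7 hl _).2 ?_⟩
  have h1 : em hw ((a : ℤ) : OO) = a := map_intCast _ _
  have h2 : ‖(a : PadicAlgCl 7)‖ ≤ 1 := by
    rw [← h1]
    exact em_le hw _
  rw [map_sub, map_pow, h1, ← hy]
  have e : y ^ 2 - (a : PadicAlgCl 7) ^ 2 = (y - a) * (y + a) := by ring
  rw [e, norm_mul]
  calc ‖y - (a : PadicAlgCl 7)‖ * ‖y + a‖ ≤ ‖y - (a : PadicAlgCl 7)‖ * 1 :=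
        mul_le_mul_of_nonneg_left (add_le hy1 h2) (norm_nonneg _)
    _ < 1 := by rwa [mul_one]

end seven

lemma p_seven {p : ℕ} [Fact p.Prime] {w : PadicAlgCl p} (hw : w ^ 2 = w - 2) (h : ‖em hw s7‖ < 1) :
    p = 7 := by
  by_contra hp
  have h1 := norm_rt hw hp
  have h2 : em hw s7 = 2 * w - 1 := by
    rw [em_apply]
    show ((-1 : ℤ) : PadicAlgCl p) + ((2 : ℤ) : PadicAlgCl p) * w = _
    push_cast
    ring
  rw [h2, h1] at h
  exact lt_irrefl _ h

variable {i₀ : QB} (hi : i₀ ^ 2 = i₀ - 2) {χ : GK i₀ →* ℤ_[2]ˣ} {m : OO} {r : QB}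

/-- the local condition at `√-7` -/
lemma loc_7 (cd : ChiD hi χ m r) {c : GK i₀ → ℚ_[2]} (hc : Coc χ c) (hc1 : ∀ σ, ‖c σ‖ ≤ 1)
    {m1 : OO} (hm : m = s7 * m1) (hq1 : ¬ s7 ∣ m1)
    {p : ℕ} [Fact p.Prime] {ι : QB →ₐ[ℚ] PadicAlgCl p} (hι : ‖em (iw hi ι) s7‖ < 1)
    (hD : CobOn χ (II ι) c) {δ : OO} (hδ : Squarefree δ) {s : QB}
    (hs : s ^ 2 = em hi δ) (hk : ∀ σ : GK i₀, σ s = s ↔ md c σ = 0) :
    (¬ s7 ∣ δ ∧ Sqm s7 δ) ∨ ∃ δ1 m1, δ = s7 * δ1 ∧ m = s7 * m1 ∧ Sqm s7 (δ1 * m1) := by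
  have hp7 : p = 7 := p_seven (iw hi ι) hι
  subst hp7
  have hp2 : 7 ≠ 2 := by norm_num
  obtain ⟨σ₀, h0, h2⟩ := exists_ram hi cd prime_s7 hm hq1 hι
  have hχ : vl χ σ₀ = -1 := by
    obtain ⟨τ, hτ, hin⟩ := h0
    unfold vl
    rw [(cd.inert 7 ι τ σ₀ hp2 hτ hin).2 h2]
    simp
  have hD' : CobOn χ (DD ι) c := dec_of_inert hc hD h0 hχ fun τ hτ => conj_mem h0 hτ
  have hsq : (ι s) ^ 2 = em (iw hi ι) δ := by rw [← map_pow, hs, ι_em]
  rcases loc_dich hi cd hc1 hD' (II_sub h0) h2 hs hk with h | h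
  · left
    refine ⟨not_dvd_of_fix (iw hi ι) prime_s7 hι hδ hsq fun τ _ hτ => fix_D h τ hτ, ?_⟩
    exact resid7 (iw hi ι) hι hsq (fix_D h)
  · right
    have hsr : (s * r) ^ 2 = em hi (δ * m) := by rw [mul_pow, hs, cd.hr, map_mul]
    have hdv : s7 ∣ δ := by
      by_contra hcon
      refine no_simple (iw hi ι) prime_s7 hι (t := δ * m1) (s := ι (s * r))
        (fun h => (prime_s7.dvd_or_dvd h).elim hcon hq1) ?_ fun τ _ hτ => fix_D h τ hτ
      rw [← map_pow, hsr, ι_em, hm]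
      congr 1
      ring
    obtain ⟨δ1, hδ1⟩ := hdv
    refine ⟨δ1, m1, hδ1, hm, ?_⟩
    have hq0 : em (iw hi ι) s7 ≠ 0 := em_ne _ prime_s7.ne_zero
    refine resid7 (iw hi ι) hι (y := ι (s * r) / em (iw hi ι) s7) ?_ ?_
    · rw [div_pow, ← map_pow, hsr, ι_em, hδ1, hm, div_eq_iff (pow_ne_zero _ hq0), ← map_pow,
        ← map_mul]
      congr 1
      ring
    · intro τ hτ
      rw [map_div₀, fix_D h τ hτ, em_fix (iw hi ι) hτ]

end Pool.Agent.R384
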