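import Pool.Agent.R384.X.Alg7
import Pool.Agent.R384.NormL

/-!
# The vanishing of the Selmer groups, the prime `√-7` being one of the bad primes
-/

set_option autoImplicit false
set_option linter.unusedSectionVars false

namespace Pool.Agent.R384

open Pool.Agent.Y715.Red Pool.Agent.Y715.Nr Pool.Agent.W237.RK
open Pool.Agent.Y715.Gi (QB KK GK i₀_mem gk_fix)
open Pool.Agent.Y715.Df (Cmp exists_cmp)
open Pool.Agent.Y715.Lc (norm_two_odd)

open scoped Classical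

section four

variable {w : PadicAlgCl 2} (hw : w ^ 2 = w - 2)

lemma norm_four' : ‖(4 : PadicAlgCl 2)‖ = 1 / 4 := by
  have e : (4 : PadicAlgCl 2) = 2 ^ 2 := by norm_num
  rw [e, norm_pow, Pool.Agent.Y715.Gi.norm_two']
  norm_num

/-- integers of norm at most `1/4` -/
lemma int_four {z : ℤ} (h : ‖(z : PadicAlgCl 2)‖ ≤ 1 / 4) : ((z : ℤ) : ZMod 4) = 0 := by
  rw [ZMod.intCast_zmod_eq_zero_iff_dvd]
  rcases Int.even_or_odd z with hz | hz
  · obtain ⟨k, hk⟩ := hz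
    rcases Int.even_or_odd k with hk' | hk'
    · obtain ⟨l, hl⟩ := hk'
      exact ⟨l, by push_cast; omega⟩
    · exfalso
      rw [even_norm (z := z) (k := k) (n := 1) (by rw [hk]; ring) (Int.odd_iff.1 hk')] at h
      norm_num at h
  · exfalso
    rw [odd_norm (Int.odd_iff.1 hz)] at h
    norm_num at h

include hw in
lemma norm_om_sub (h : ‖w‖ < 1) : ‖w - 2‖ = 1 / 4 := by
  have h1 : ‖w‖ = 1 / 2 := half_norm (by linear_combination -hw) h
  rw [← hw, norm_pow, h1]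
  norm_num

include hw in
lemma norm_om_add (h : ‖1 - w‖ < 1) : ‖w + 1‖ = 1 / 4 := by
  have h1 : ‖1 - w‖ = 1 / 2 := half_norm (by linear_combination -hw) h
  have e : w + 1 = -(1 - w) ^ 2 := by linear_combination hw
  rw [e, norm_neg, norm_pow, h1]
  norm_num

/-- reduction modulo the square of the strict prime -/
lemma em_four {ϖ : OO} {w4 : ZMod 4} (hw4 : w4 ^ 2 = w4 - 2)
    (hϖ : (ϖ = om ∧ w4 = 2) ∨ (ϖ = 1 - om ∧ w4 = 3)) (hs : ‖em hw ϖ‖ < 1) {y : OO}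
    (h : ‖em hw y‖ ≤ 1 / 4) : em hw4 y = 0 := by
  have hom : em hw om = w := by
    rw [em_apply]
    simp [om]
  rw [em_apply] at h
  rcases hϖ with ⟨rfl, rfl⟩ | ⟨rfl, rfl⟩
  · rw [hom] at hs
    have h1 := norm_om_sub hw hs
    have h2 : ‖((y.re + 2 * y.im : ℤ) : PadicAlgCl 2)‖ ≤ 1 / 4 := by
      have e : ((y.re + 2 * y.im : ℤ) : PadicAlgCl 2) =
          ((y.re : PadicAlgCl 2) + (y.im : PadicAlgCl 2) * w) - (y.im : PadicAlgCl 2) * (w - 2) := by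
        push_cast
        ring
      rw [e]
      refine sub_le h ?_
      rw [norm_mul, h1]
      have := IsUltrametricDist.norm_intCast_le_one (PadicAlgCl 2) y.im
      linarith
    have h3 := int_four h2
    rw [em_apply]
    push_cast at h3
    rw [← h3]
    ring
  · rw [map_sub, map_one, hom] at hs
    have h1 := norm_om_add hw hs
    have h2 : ‖((y.re - y.im : ℤ) : PadicAlgCl 2)‖ ≤ 1 / 4 := by
      have e : ((y.re - y.im : ℤ) : PadicAlgCl 2) =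
          ((y.re : PadicAlgCl 2) + (y.im : PadicAlgCl 2) * w) - (y.im : PadicAlgCl 2) * (w + 1) := by
        push_cast
        ring
      rw [e]
      refine sub_le h ?_
      rw [norm_mul, h1]
      have := IsUltrametricDist.norm_intCast_le_one (PadicAlgCl 2) y.im
      linarith
    have h3 := int_four h2
    rw [em_apply]
    push_cast at h3
    have h31 : (3 : ZMod 4) = -1 := by decide
    rw [h31, ← h3]
    ring

lemma em_four_one {ϖ : OO} {w4 : ZMod 4} (hw4 : w4 ^ 2 = w4 - 2)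
    (hϖ : (ϖ = om ∧ w4 = 2) ∨ (ϖ = 1 - om ∧ w4 = 3)) (hs : ‖em hw ϖ‖ < 1) {y : OO}
    (h : ‖em hw y - 1‖ ≤ 1 / 4) : em hw4 y = 1 := by
  have h1 : em hw4 (y - 1) = 0 := em_four hw hw4 hϖ hs (by rwa [map_sub, map_one])
  rw [map_sub, map_one] at h1
  exact sub_eq_zero.1 h1

end four

variable {i₀ : QB} (hi : i₀ ^ 2 = i₀ - 2)

variable {χ : GK i₀ →* ℤ_[2]ˣ} {m : OO} {r : QB}

lemma norm_one_of5 {x : PadicAlgCl 2} (h : ‖x - 5‖ ≤ 1 / 8) : ‖x‖ = 1 := by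
  have h2 : ‖((5 : ℤ) : PadicAlgCl 2)‖ = 1 := odd_norm (by norm_num)
  push_cast at h2
  have e : x = 5 + (x - 5) := by ring
  rw [e, eq_of_lt, h2]
  rw [h2]
  linarith

/-- there is an element of the decomposition group that moves `√m` -/
lemma exists_dec5 (cd : ChiD hi χ m r) (ι : QB →ₐ[ℚ] PadicAlgCl 2)
    (h5 : ‖em (iw hi ι) m - 5‖ ≤ 1 / 8) : ∃ σ ∈ (DD ι : Set (GK i₀)), σ r = -r := by
  by_contra hcon
  push Not at hcon
  have hfix : ∀ τ : Au 2, τ (ι r) = ι r := by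
    intro τ
    refine fix_D (fun σ hσ => ?_) τ (two_fix (iw hi ι) τ)
    rcases rt_or hi cd.hr σ with h | h
    · exact h
    · exact absurd h (hcon σ hσ)
  have h1 : (ι r) ^ 2 = em (iw hi ι) m := by rw [← map_pow, cd.hr, ι_em]
  have h2 : ‖ι r‖ = 1 := by
    have h3 := norm_one_of5 h5
    rw [← h1, norm_pow] at h3
    exact (pow_eq_one_iff_of_nonneg (norm_nonneg _) two_ne_zero).1 h3
  have h3 := sq_mod_eight h2 hfix
  rw [h1] at h3
  have h6 : ‖((5 - 1 : ℤ) : PadicAlgCl 2)‖ ≤ 1 / 8 := by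
    have e : ((5 - 1 : ℤ) : PadicAlgCl 2) = (em (iw hi ι) m - 1) - (em (iw hi ι) m - 5) := by
      push_cast
      ring
    rw [e]
    exact sub_le h3 h5
  rw [even_norm (z := 5 - 1) (k := 1) (n := 2) (by norm_num) (by norm_num)] at h6
  norm_num at h6

/-- the local condition at the strict place -/
lemma loc_strict5 (cd : ChiD hi χ m r) {c : GK i₀ → ℚ_[2]} (hc1 : ∀ σ, ‖c σ‖ ≤ 1)
    {ϖ : OO} (hϖ : Prime ϖ)
    {ι : QB →ₐ[ℚ] PadicAlgCl 2} (hι : ‖em (iw hi ι) ϖ‖ < 1) (h5 : ‖em (iw hi ι) m - 5‖ ≤ 1 / 8)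
    (hD : CobOn χ (DD ι) c) {δ : OO} (hδ : Squarefree δ) {s : QB}
    (hs : s ^ 2 = em hi δ) (hk : ∀ σ : GK i₀, σ s = s ↔ md c σ = 0) :
    ¬ ϖ ∣ δ ∧ (‖em (iw hi ι) δ - 1‖ ≤ 1 / 8 ∨ ‖em (iw hi ι) (δ * m) - 1‖ ≤ 1 / 8) := by
  obtain ⟨σ₀, h0, h2⟩ := exists_dec5 hi cd ι h5
  have hm1 := norm_one_of5 h5
  have hϖm : ¬ ϖ ∣ m := by
    rw [dvd_iff (iw hi ι) hϖ hι, hm1]
    exact lt_irrefl _
  have hsq : (ι s) ^ 2 = em (iw hi ι) δ := by rw [← map_pow, hs, ι_em]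
  have key : ∀ {x : OO} {y : PadicAlgCl 2}, y ^ 2 = em (iw hi ι) x → ¬ ϖ ∣ x →
      (∀ τ : Au 2, τ y = y) → ‖em (iw hi ι) x - 1‖ ≤ 1 / 8 := by
    intro x y hy hx hfix
    have h3 := eq_one_of_not_lt (iw hi ι) ((dvd_iff (iw hi ι) hϖ hι x).not.1 hx)
    rw [← hy, norm_pow] at h3
    rw [← hy]
    exact sq_mod_eight ((pow_eq_one_iff_of_nonneg (norm_nonneg _) two_ne_zero).1 h3) hfix
  rcases loc_dich hi cd hc1 hD h0 h2 hs hk with h | h
  · have h3 := not_dvd_of_fix (iw hi ι) hϖ hι hδ hsq fun τ _ hτ => fix_D h τ hτ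
    exact ⟨h3, Or.inl (key hsq h3 fun τ => fix_D h τ (two_fix (iw hi ι) τ))⟩
  · have hsr : (ι (s * r)) ^ 2 = em (iw hi ι) (δ * m) := by
      rw [← map_pow, mul_pow, hs, cd.hr, ← map_mul, ι_em]
    have h3 : ¬ ϖ ∣ δ := by
      rintro ⟨t, ht⟩
      have h4 : ¬ ϖ ∣ t := by
        rintro ⟨v, rfl⟩
        exact hϖ.not_isUnit (hδ ϖ ⟨v, by rw [ht]; ring⟩)
      refine no_simple (iw hi ι) hϖ hι (t := t * m) (s := ι (s * r))
        (fun h => (hϖ.dvd_or_dvd h).elim h4 hϖm) ?_ fun τ _ hτ => fix_D h τ hτ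
      rw [hsr, ht]
      congr 1
      ring
    exact ⟨h3, Or.inr (key hsr (fun h => (hϖ.dvd_or_dvd h).elim h3 hϖm)
      fun τ => fix_D h τ (two_fix (iw hi ι) τ))⟩

theorem main7 {n : ℕ} {q : Fin n → OO} (hq : ∀ i, Pr (q i)) (hinj : Function.Injective q)
    (h8 : (8 : OO) ∣ ∏ i, q i - 1) (hind : Indec7 q) {v : OO} (hv : v = 1 ∨ v = -1)
    (hm : m = v * (s7 * ∏ i, q i)) (cd : ChiD hi χ m r) {ϖ ϖ' : OO}
    (hϖ : (ϖ = om ∧ ϖ' = 1 - om) ∨ (ϖ = 1 - om ∧ ϖ' = om))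
    (hm5 : ∀ ι : QB →ₐ[ℚ] PadicAlgCl 2, ‖em (iw hi ι) ϖ‖ < 1 → ‖em (iw hi ι) m - 5‖ ≤ 1 / 8)
    {c : GK i₀ → ℚ_[2]} (hc : Coc χ c)
    (hodd : ∀ (p : ℕ) [Fact p.Prime] (ι : QB →ₐ[ℚ] PadicAlgCl p), p ≠ 2 → CobOn χ (II ι) c)
    (hstr : ∀ ι : QB →ₐ[ℚ] PadicAlgCl 2, ‖ι (em hi ϖ)‖ < 1 → CobOn χ (DD ι) c) :
    ∃ y : ℚ_[2], ∀ σ, c σ = (vl χ σ - 1) * y := by
  classical
  by_contra hn
  have hϖp : Prime ϖ := by
    rcases hϖ with ⟨rfl, -⟩ | ⟨rfl, -⟩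
    · exact prime_om
    · exact prime_om'
  have hϖ2 : ϖ * ϖ' = 2 := by
    rcases hϖ with ⟨rfl, rfl⟩ | ⟨rfl, rfl⟩
    · exact om_mul
    · rw [mul_comm]; exact om_mul
  -- the strict place
  obtain ⟨p, hpf, ι, hι⟩ := exists_emb hi hϖp
  have hp2 : p = 2 := by
    rw [ι_em] at hι
    exact (two_of_dvd hϖp (iw hi ι) hι).2 ⟨_, hϖ2.symm⟩
  subst hp2
  have hι' : ‖em (iw hi ι) ϖ‖ < 1 := by rwa [ι_em] at hι
  have h5 := hm5 ι hι'
  obtain ⟨σ₀, -, hσ₀⟩ := exists_dec5 hi cd ι h5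
  -- normalization
  obtain ⟨a, y, ha, hint, hmin⟩ := normalize hc (cd.big hi hσ₀) hn
  set c' : GK i₀ → ℚ_[2] := fun σ => a * c σ + (vl χ σ - 1) * y with hc'
  have hcc : Coc χ c' := hc.twist cd.cont a y
  have hodd' : ∀ (p : ℕ) [Fact p.Prime] (ι : QB →ₐ[ℚ] PadicAlgCl p), p ≠ 2 →
      CobOn χ (II ι) c' := fun p _ ι hp => (hodd p ι hp).twist a y
  have hstr' : CobOn χ (DD ι) c' := (hstr ι hι).twist a y
  -- Kummer theory
  obtain ⟨δ, hδ, hkum⟩ := kum hi (md c') (md_cont hcc) (md_mul hcc hint)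
  obtain ⟨s, hs⟩ : ∃ s : QB, s ^ 2 = em hi δ := IsAlgClosed.exists_pow_nat_eq _ (by norm_num)
  have hk : ∀ σ : GK i₀, σ s = s ↔ md c' σ = 0 := hkum s hs
  obtain ⟨hst1, hst2⟩ := loc_strict5 hi cd hint hϖp hι' h5 hstr' hδ hs hk
  -- the prime divisors of `δ`
  have hsup : ∀ π, Prime π → π ∣ δ → π ∣ ϖ' ∨ π ∣ s7 ∨ ∃ i, π ∣ q i := by
    intro π hπ hπδ
    by_cases hπ2 : π ∣ 2
    · rw [← hϖ2] at hπ2
      rcases hπ.dvd_or_dvd hπ2 with h | h
      · exfalso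
        exact hst1 (((hπ.dvd_prime_iff_associated hϖp).1 h).symm.dvd.trans hπδ)
      · exact Or.inl h
    · by_cases hπm : π ∣ m
      · right
        have h1 : π ∣ s7 * ∏ i, q i := by
          rcases hv with h | h
          · rwa [hm, h, one_mul] at hπm
          · rwa [hm, h, neg_one_mul, dvd_neg] at hπm
        rcases hπ.dvd_or_dvd h1 with h2 | h2
        · exact Or.inl h2
        · right
          obtain ⟨i, -, h3⟩ := (hπ.dvd_finsetProd_iff _).1 h2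
          exact ⟨i, h3⟩
      · exfalso
        obtain ⟨l, hl, κ, hκ⟩ := exists_emb hi hπ
        rw [ι_em] at hκ
        have hl2 : l ≠ 2 := fun h => hπ2 ((two_of_dvd hπ (iw hi κ) hκ).1 h)
        have h1 := unram hi cd hl2 (hodd' l κ hl2) ((dvd_iff (iw hi κ) hπ hκ m).not.1 hπm)
        refine not_dvd_of_fix (iw hi κ) hπ hκ hδ (s := κ s) ?_ ?_ hπδ
        · rw [← map_pow, hs, ι_em]
        · intro τ hin hτ
          exact fix_I (fun σ hσ => (hk σ).2 (h1 σ hσ)) τ hin hτ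
  have hv' : ∀ {π : OO}, Prime π → ¬ π ∣ v := by
    intro π hπ h
    rcases hv with h1 | h1
    · rw [h1] at h
      exact hπ.not_isUnit (isUnit_of_dvd_one h)
    · rw [h1, dvd_neg] at h
      exact hπ.not_isUnit (isUnit_of_dvd_one h)
  -- the prime divisors of `m`
  have hloc : ∀ i, (¬ q i ∣ δ ∧ Sqm (q i) δ) ∨
      ∃ δ1 m1, δ = q i * δ1 ∧ m = q i * m1 ∧ Sqm (q i) (δ1 * m1) := by
    intro i
    obtain ⟨m1, hm1, hm1'⟩ : ∃ m1, m = q i * m1 ∧ ¬ q i ∣ m1 := by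
      have h1 := Finset.mul_prod_erase Finset.univ q (Finset.mem_univ i)
      have h2 := nd_prod hq hinj (Finset.notMem_erase i Finset.univ)
      refine ⟨v * (s7 * ∏ k ∈ Finset.univ.erase i, q k), by rw [hm, ← h1]; ring, fun h => ?_⟩
      rcases (hq i).prime.dvd_or_dvd h with h3 | h3
      · exact hv' (hq i).prime h3
      · rcases (hq i).prime.dvd_or_dvd h3 with h4 | h4
        · exact (hq i).not_s7 h4
        · exact h2 h4
    obtain ⟨l, hl, κ, hκ⟩ := exists_emb hi (hq i).prime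
    rw [ι_em] at hκ
    have hl2 : l ≠ 2 := fun h => (hq i).two ((two_of_dvd (hq i).prime (iw hi κ) hκ).1 h)
    exact loc_q hi cd hcc hint (hq i) hm1 hm1' hκ (hodd' l κ hl2) hδ hs hk
  have hloc7 : (¬ s7 ∣ δ ∧ Sqm s7 δ) ∨
      ∃ δ1 m1, δ = s7 * δ1 ∧ m = s7 * m1 ∧ Sqm s7 (δ1 * m1) := by
    obtain ⟨l, hl, κ, hκ⟩ := exists_emb hi prime_s7
    rw [ι_em] at hκ
    have hl7 := p_seven (iw hi κ) hκ
    have hl2 : l ≠ 2 := by rw [hl7]; norm_num
    refine loc_7 hi cd hcc hint (m1 := v * ∏ i, q i) (by rw [hm]; ring) (fun h => ?_) hκ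
      (hodd' l κ hl2) hδ hs hk
    rcases prime_s7.dvd_or_dvd h with h1 | h1
    · exact hv' prime_s7 h1
    · obtain ⟨j, -, h2⟩ := (prime_s7.dvd_finsetProd_iff _).1 h1
      exact (hq j).s7_not h2
  -- modulo four
  obtain ⟨w4, hw4, h4a, h4b⟩ : ∃ w4 : ZMod 4, w4 ^ 2 = w4 - 2 ∧
      ((ϖ = om ∧ w4 = 2) ∨ (ϖ = 1 - om ∧ w4 = 3)) ∧
      ((ϖ' = 1 - om ∧ w4 = 2) ∨ (ϖ' = om ∧ w4 = 3)) := by
    rcases hϖ with ⟨h1, h2⟩ | ⟨h1, h2⟩
    · exact ⟨2, by decide, Or.inl ⟨h1, rfl⟩, Or.inl ⟨h2, rfl⟩⟩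
    · exact ⟨3, by decide, Or.inr ⟨h1, rfl⟩, Or.inr ⟨h2, rfl⟩⟩
  have hm4 : em hw4 m = 1 := by
    apply em_four_one (iw hi ι) hw4 h4a hι'
    have e : em (iw hi ι) m - 1 = (em (iw hi ι) m - 5) + 4 := by ring
    rw [e]
    exact add_le (h5.trans (by norm_num)) norm_four'.le
  have hδ4 : em hw4 δ = 1 := by
    rcases hst2 with h | h
    · exact em_four_one (iw hi ι) hw4 h4a hι' (h.trans (by norm_num))
    · have h1 := em_four_one (iw hi ι) hw4 h4a hι' (h.trans (by norm_num))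
      rwa [map_mul, hm4, mul_one] at h1
  have hδ2 := alg7 hq hinj hv hm h8 hind hw4 h4b hm4 hδ4 hδ hsup hloc hloc7
  rcases hδ2 with h | h
  · -- `δ = 1`
    rw [h, map_one] at hs
    obtain ⟨σ, hσ⟩ := hmin 0
    rw [mul_zero, sub_zero] at hσ
    apply hσ
    have h1 : σ s = s := by
      rcases sq_eq_one_iff.1 hs with h2 | h2
      · rw [h2, map_one]
      · rw [h2, map_neg, map_one]
    have h5 : ‖c' σ‖ < 1 := md_zero.1 ((hk σ).1 h1)
    exact h5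
  · -- `δ = m`
    rw [h] at hs
    have hsr : ∀ σ : GK i₀, σ s = s ↔ σ r = r := by
      intro σ
      have h1 : s ^ 2 = r ^ 2 := by rw [hs, cd.hr]
      rcases sq_eq_sq_iff_eq_or_eq_neg.1 h1 with h2 | h2
      · rw [h2]
      · rw [h2, map_neg, neg_inj]
    obtain ⟨σ, hσ⟩ := hmin (1 / 2)
    apply hσ
    have h2n : ‖(2 : ℚ_[2])‖ = 1 / 2 := norm_two'
    have h3 : ‖(vl χ σ - 1) * (1 / 2)‖ = 2 * ‖vl χ σ - 1‖ := by
      rw [norm_mul, norm_div, norm_one, h2n]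
      ring
    by_cases h4 : md c' σ = 0
    · have h5 : ‖c' σ‖ < 1 := md_zero.1 h4
      have h6 := (cd.iff hi σ).2 ((hsr σ).1 ((hk σ).2 h4))
      have e : c' σ - (vl χ σ - 1) * (1 / 2) = c' σ + -((vl χ σ - 1) * (1 / 2)) := by ring
      have h7 : ‖c' σ - (vl χ σ - 1) * (1 / 2)‖ < 1 := by
        rw [e]
        refine add_lt' h5 ?_
        rw [norm_neg, h3]
        linarith
      exact h7
    · have h5 : ¬ ‖c' σ‖ < 1 := fun h => h4 (md_zero.2 h)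
      have h6 := (md_eq (hint σ)).1 h5
      have h7 : σ r = -r := by
        rcases rt_or hi cd.hr σ with h7 | h7
        · exact absurd ((hk σ).1 ((hsr σ).2 h7)) h4
        · exact h7
      have h8 := cd.big hi h7
      have h9 : ¬ ‖(vl χ σ - 1) * (1 / 2)‖ < 1 := by
        rw [h3, h8]
        norm_num
      have h10 := (md_eq (by rw [h3, h8]; norm_num)).1 h9
      have e : c' σ - (vl χ σ - 1) * (1 / 2) = (c' σ - 1) + -((vl χ σ - 1) * (1 / 2) - 1) := by ring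
      rw [e]
      exact add_lt' h6 (by rwa [norm_neg])

/-! ### The characters of the twists of `X_0(49)` -/

section

variable {κ κ' : GK i₀ →* ℤ_[2]ˣ} {D : OO} {I : QB}

lemma norm_eight' : ‖(8 : PadicAlgCl 2)‖ = 1 / 8 := by
  have e : (8 : PadicAlgCl 2) = 2 ^ 3 := by norm_num
  rw [e, norm_pow, Pool.Agent.Y715.Gi.norm_two']
  norm_num

/-- the sizes at the two places above two -/
lemma s7_five {ι : QB →ₐ[ℚ] PadicAlgCl 2} {P : OO} (h8 : (8 : OO) ∣ P - 1) :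
    (‖em (iw hi ι) om‖ < 1 → ‖em (iw hi ι) (-(s7 * P)) - 5‖ ≤ 1 / 8) ∧
    (‖em (iw hi ι) (1 - om)‖ < 1 → ‖em (iw hi ι) (s7 * P) - 5‖ ≤ 1 / 8) := by
  have hom : em (iw hi ι) om = ι i₀ := by
    rw [em_apply]
    simp [om]
  have hs : em (iw hi ι) s7 = 2 * ι i₀ - 1 := by
    rw [em_apply]
    show ((-1 : ℤ) : PadicAlgCl 2) + ((2 : ℤ) : PadicAlgCl 2) * ι i₀ = _
    push_cast
    ring
  obtain ⟨t, ht⟩ := h8
  have hP : P = 1 + 8 * t := by linear_combination ht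
  have hPe : em (iw hi ι) P = 1 + 8 * em (iw hi ι) t := by
    rw [hP, map_add, map_mul, map_one, map_ofNat]
  have h8t : ‖(8 : PadicAlgCl 2) * (em (iw hi ι) s7 * em (iw hi ι) t)‖ ≤ 1 / 8 := by
    rw [norm_mul, norm_eight', ← map_mul]
    have := em_le (iw hi ι) (s7 * t)
    linarith
  constructor
  · intro h
    rw [hom] at h
    have h1 := norm_om_sub (iw hi ι) h
    have e : em (iw hi ι) (-(s7 * P)) - 5 = -(2 * ((ι i₀ - 2) + 4)) -
        8 * (em (iw hi ι) s7 * em (iw hi ι) t) := by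
      rw [map_neg, map_mul, hPe, hs]
      ring
    rw [e]
    refine sub_le ?_ h8t
    rw [norm_neg, norm_mul, Pool.Agent.Y715.Gi.norm_two']
    have h2 : ‖(ι i₀ - 2) + 4‖ ≤ 1 / 4 := add_le h1.le norm_four'.le
    linarith
  · intro h
    rw [map_sub, map_one, hom] at h
    have h1 := norm_om_add (iw hi ι) h
    have e : em (iw hi ι) (s7 * P) - 5 = 2 * ((ι i₀ + 1) - 4) +
        8 * (em (iw hi ι) s7 * em (iw hi ι) t) := by
      rw [map_mul, hPe, hs]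
      ring
    rw [e]
    refine add_le ?_ h8t
    rw [norm_mul, Pool.Agent.Y715.Gi.norm_two']
    have h2 : ‖(ι i₀ + 1) - 4‖ ≤ 1 / 4 := sub_le h1.le norm_four'.le
    linarith

/-- the parity of the character -/
theorem chiD7 (kd : KD hi κ κ' D r I) (j : ℤ) :
    ∃ (m : OO) (s : QB), ((Even j ∧ m = D) ∨ (Odd j ∧ m = -D)) ∧
      ChiD hi (κ ^ j * κ' ^ (1 - j)) m s := by
  have hap : ∀ σ, (κ ^ j * κ' ^ (1 - j) : GK i₀ →* ℤ_[2]ˣ) σ = (κ σ) ^ j * (κ' σ) ^ (1 - j) :=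
    fun σ => rfl
  have hcont : Continuous (κ ^ j * κ' ^ (1 - j) : GK i₀ →* ℤ_[2]ˣ) := by
    have h1 : Continuous fun σ => (κ σ) ^ j * (κ' σ) ^ (1 - j) :=
      (kd.cont.zpow j).mul (kd.cont'.zpow (1 - j))
    exact h1
  have hinert : ∀ (p : ℕ) [Fact p.Prime] (ι : QB →ₐ[ℚ] PadicAlgCl p) (τ : Au p) (σ : GK i₀),
      p ≠ 2 → Cmp ι τ σ → Inert τ → (σ r = r → (κ ^ j * κ' ^ (1 - j) : GK i₀ →* ℤ_[2]ˣ) σ = 1) ∧
        (σ r = -r → (κ ^ j * κ' ^ (1 - j) : GK i₀ →* ℤ_[2]ˣ) σ = -1) := by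
    intro p _ ι τ σ hp hc hin
    obtain ⟨n1, n2⟩ := norm_w_odd hi hp ι
    have hσI := kd.fixI hi hp hc hin
    have a1 := kd.inert p ι τ σ hc hin n1
    have a2 := kd.inert' p ι τ σ hc hin n2
    rw [hap]
    constructor
    · intro h
      rw [a1.1 (by rw [map_mul, hσI, h]), a2.1 h, one_zpow, one_zpow, one_mul]
    · intro h
      rw [a1.2 (by rw [map_mul, hσI, h, mul_neg]), a2.2 h, ← zpow_add, add_sub_cancel, zpow_one]
  rcases Int.even_or_odd j with hj | hj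
  · have hph : ∀ σ, ph ((κ ^ j * κ' ^ (1 - j) : GK i₀ →* ℤ_[2]ˣ) σ) = ph (κ' σ) := by
      obtain ⟨k, hk⟩ := hj
      have hk' : j = 2 * k := by omega
      intro σ
      rw [hap, map_mul, map_zpow, map_zpow, hk', zpow_even (sq_four _), one_mul, zpow_sub,
        zpow_even (sq_four _), zpow_one]
      simp
    refine ⟨D, r, Or.inl ⟨hj, rfl⟩, hcont, kd.hr, ?_, ?_, hinert⟩
    · intro σ h
      rw [← ph_one, hph]
      exact kd.one' σ h
    · intro σ h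
      rw [← ph_neg, hph]
      exact kd.neg' σ h
  · have hph : ∀ σ, ph ((κ ^ j * κ' ^ (1 - j) : GK i₀ →* ℤ_[2]ˣ) σ) = ph (κ σ) := by
      obtain ⟨k, hk⟩ := hj
      intro σ
      have e : 1 - j = 2 * (-k) := by omega
      rw [hap, map_mul, map_zpow, map_zpow, e, zpow_even (sq_four _), mul_one, hk, zpow_add,
        zpow_even (sq_four _), zpow_one, one_mul]
    refine ⟨-D, I * r, Or.inr ⟨hj, rfl⟩, hcont, ?_, ?_, ?_, ?_⟩
    · rw [mul_pow, kd.hI, kd.hr, map_neg]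
      ring
    · intro σ h
      rw [← ph_one, hph]
      exact kd.one σ h
    · intro σ h
      rw [← ph_neg, hph]
      exact kd.neg σ h
    · intro p _ ι τ σ hp hc hin
      have hσI := kd.fixI hi hp hc hin
      have hI0 : I ≠ 0 := by
        rintro h0
        have := kd.hI
        rw [h0] at this
        norm_num at this
      obtain ⟨a1, a2⟩ := hinert p ι τ σ hp hc hin
      constructor
      · intro h
        apply a1
        rw [map_mul, hσI] at h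
        exact mul_left_cancel₀ hI0 h
      · intro h
        apply a2
        rw [map_mul, hσI, ← mul_neg] at h
        exact mul_left_cancel₀ hI0 h

/-- **The vanishing theorem** for the curve `E_D`, `D = -√-7 ∏ q_i`. -/
theorem vanish7 {n : ℕ} {q : Fin n → OO} (hq : ∀ i, Pr (q i)) (hinj : Function.Injective q)
    (h8 : (8 : OO) ∣ ∏ i, q i - 1) (hind : Indec7 q) (hD : D = -(s7 * ∏ i, q i))
    (kd : KD hi κ κ' D r I) (j : ℤ) {ϖ ϖ' : OO}
    (hϖ : (Even j ∧ ϖ = om ∧ ϖ' = 1 - om) ∨ (Odd j ∧ ϖ = 1 - om ∧ ϖ' = om))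
    {c : GK i₀ → ℚ_[2]} (hc : Coc (κ ^ j * κ' ^ (1 - j)) c)
    (hodd : ∀ (p : ℕ) [Fact p.Prime] (ι : QB →ₐ[ℚ] PadicAlgCl p), p ≠ 2 →
      CobOn (κ ^ j * κ' ^ (1 - j)) (II ι) c)
    (hstr : ∀ ι : QB →ₐ[ℚ] PadicAlgCl 2, ‖ι (em hi ϖ)‖ < 1 →
      CobOn (κ ^ j * κ' ^ (1 - j)) (DD ι) c) :
    ∃ y : ℚ_[2], ∀ σ, c σ = (vl (κ ^ j * κ' ^ (1 - j)) σ - 1) * y := by
  obtain ⟨m, s, hm, cd⟩ := chiD7 hi kd j
  rcases hϖ with ⟨hj, h1, h2⟩ | ⟨hj, h1, h2⟩
  · have hm' : m = D := by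
      rcases hm with ⟨-, h⟩ | ⟨h, -⟩
      · exact h
      · exact absurd hj (Int.not_even_iff_odd.2 h)
    refine main7 hi hq hinj h8 hind (v := -1) (Or.inr rfl) (by rw [hm', hD]; ring) cd
      (Or.inl ⟨h1, h2⟩) (fun ι hι => ?_) hc hodd hstr
    rw [h1] at hι
    rw [hm', hD]
    exact (s7_five hi h8).1 hι
  · have hm' : m = -D := by
      rcases hm with ⟨h, -⟩ | ⟨-, h⟩
      · exact absurd h (Int.not_even_iff_odd.2 hj)
      · exact h
    refine main7 hi hq hinj h8 hind (v := 1) (Or.inl rfl) (by rw [hm', hD]; ring) cd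
      (Or.inr ⟨h1, h2⟩) (fun ι hι => ?_) hc hodd hstr
    rw [h1] at hι
    rw [hm', hD, neg_neg]
    exact (s7_five hi h8).2 hι

end

end Pool.Agent.R384
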