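import Pool.Agent.R384.X.Coh
import Pool.Agent.R384.X.Main7

/-!
# The Selmer groups over multiquadratic fields
-/

set_option autoImplicit false
set_option linter.unusedSectionVars false

namespace Pool.Agent.R384

open Pool.Agent.Y715.Red Pool.Agent.Y715.Nr Pool.Agent.W237.RK
open Pool.Agent.Y715.Gi (QB KK GK i₀_mem gk_fix)
open Pool.Agent.Y715.Df (Cmp exists_cmp)
open Pool.Agent.Y715.Lc (norm_two_odd)

variable {i₀ : QB} (hi : i₀ ^ 2 = i₀ - 2)

section groups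

variable {p : ℕ} [Fact p.Prime] (ι : QB →ₐ[ℚ] PadicAlgCl p)

lemma cmp_inv {ι : QB →ₐ[ℚ] PadicAlgCl p} {t : Au p} {τ : GK i₀} (h3 : Cmp ι t τ) :
    Cmp ι t⁻¹ τ⁻¹ := by
  intro x
  have h5 := h3 (τ⁻¹ x)
  rw [← AlgEquiv.mul_apply τ τ⁻¹, mul_inv_cancel, AlgEquiv.one_apply] at h5
  rw [← h5, ← AlgEquiv.mul_apply t⁻¹ t, inv_mul_cancel, AlgEquiv.one_apply]

/-- the decomposition group -/
def DDs : Subgroup (GK i₀) where
  carrier := DD ι
  mul_mem' := by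
    rintro a b ⟨t, ht⟩ ⟨u, hu⟩
    exact ⟨t * u, ht.mul hu⟩
  one_mem' := ⟨1, fun x => rfl⟩
  inv_mem' := by
    rintro a ⟨t, ht⟩
    exact ⟨t⁻¹, cmp_inv ht⟩

/-- the inertia group -/
def IIs : Subgroup (GK i₀) where
  carrier := II ι
  mul_mem' := by
    rintro a b ⟨t, ht, h1⟩ ⟨u, hu, h2⟩
    refine ⟨t * u, ht.mul hu, ?_⟩
    intro z hz
    have h3 := h1 (u z) (by rwa [nrm])
    have h4 := h2 z hz
    have e : (t * u) z - z = (t (u z) - u z) + (u z - z) := by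
      rw [AlgEquiv.mul_apply]
      ring
    rw [e]
    exact lt_of_le_of_lt (IsUltrametricDist.norm_add_le_max _ _) (max_lt h3 h4)
  one_mem' := ⟨1, fun x => rfl, fun z _ => by simp⟩
  inv_mem' := by
    rintro a ⟨t, ht, h1⟩
    refine ⟨t⁻¹, cmp_inv ht, ?_⟩
    intro z hz
    have h3 := h1 z hz
    have e : t⁻¹ z - z = -(t⁻¹ (t z - z)) := by
      rw [map_sub, ← AlgEquiv.mul_apply t⁻¹ t, inv_mul_cancel, AlgEquiv.one_apply]
      ring
    rw [e, norm_neg, nrm]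
    exact h3

/-- the conjugate embedding -/
noncomputable def cι (t : GK i₀) : QB →ₐ[ℚ] PadicAlgCl p :=
  ι.comp ((t.restrictScalars ℚ : QB ≃ₐ[ℚ] QB) : QB →ₐ[ℚ] QB)

lemma cι_apply (t : GK i₀) (x : QB) : cι ι t x = ι (t x) := rfl

variable {ι}

lemma cmp_conj {t σ : GK i₀} {ρ : Au p} (h : Cmp ι ρ σ) : Cmp (cι ι t) ρ (t⁻¹ * σ * t) := by
  intro x
  rw [cι_apply, cι_apply, h, AlgEquiv.mul_apply, AlgEquiv.mul_apply, ← AlgEquiv.mul_apply t t⁻¹,
    mul_inv_cancel, AlgEquiv.one_apply]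

lemma II_conj {t σ : GK i₀} (h : σ ∈ II ι) : t⁻¹ * σ * t ∈ II (cι ι t) := by
  obtain ⟨ρ, h1, h2⟩ := h
  exact ⟨ρ, cmp_conj h1, h2⟩

lemma DD_conj {t σ : GK i₀} (h : σ ∈ DD ι) : t⁻¹ * σ * t ∈ DD (cι ι t) := by
  obtain ⟨ρ, h1⟩ := h
  exact ⟨ρ, cmp_conj h1⟩

end groups

/-- the Selmer group over the field fixed by `H` is zero -/
def VanOn (ϖ : OO) (χ : GK i₀ →* ℤ_[2]ˣ) (H : Subgroup (GK i₀)) : Prop :=
  ∀ c : GK i₀ → ℚ_[2], CocOn χ H c →
    (∀ (p : ℕ) [Fact p.Prime] (ι : QB →ₐ[ℚ] PadicAlgCl p), p ≠ 2 →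
      ∃ y : ℚ_[2], ∀ σ ∈ II ι, σ ∈ H → c σ = (vl χ σ - 1) * y) →
    (∀ ι : QB →ₐ[ℚ] PadicAlgCl 2, ‖ι (em hi ϖ)‖ < 1 →
      ∃ y : ℚ_[2], ∀ σ ∈ DD ι, σ ∈ H → c σ = (vl χ σ - 1) * y) →
    ∃ y : ℚ_[2], ∀ σ ∈ H, c σ = (vl χ σ - 1) * y

lemma vl_conj {G : Type} [Group G] [TopologicalSpace G] {χ : G →* ℤ_[2]ˣ} (t g : G) :
    vl χ (t⁻¹ * g * t) = vl χ g := by
  rw [vl_mul, vl_mul]
  linear_combination vl χ g * vl_inv (χ := χ) t

/-- **The step.** -/
theorem VanOn.step {ϖ : OO} {χ : GK i₀ →* ℤ_[2]ˣ} {ε : GK i₀ →* ℤˣ} {G' : Subgroup (GK i₀)}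
    (hop : ∀ u : ℤˣ, IsOpen {g | ε g = u}) (h1 : VanOn hi ϖ χ G')
    (h2 : VanOn hi ϖ (χ * sgc ε) G') : VanOn hi ϖ χ (kr ε G') := by
  by_cases hG : ∃ t ∈ G', ε t = -1
  · obtain ⟨t, ht, hε⟩ := hG
    intro c hc hodd hstr
    have hc' : ∀ σ ∈ kr ε G', ∀ τ ∈ kr ε G', c (σ * τ) = c σ + vl (χ * sgc ε) σ * c τ := by
      intro σ hσ τ hτ
      rw [vl_sgc_pos (mem_kr.1 hσ).2]
      exact hc.mul σ hσ τ hτ
    have hem : ∀ {p : ℕ} [Fact p.Prime] (ι : QB →ₐ[ℚ] PadicAlgCl p),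
        cι ι t (em hi ϖ) = ι (em hi ϖ) := by
      intro p _ ι
      rw [cι_apply, gk_em]
    obtain ⟨y₁, hy₁⟩ := h1 (cor χ ε t c) ⟨cor_cont ht hε hop hc.cont,
        fun σ hσ τ hτ => cor_mul ht hε hc.mul hσ hτ⟩ (by
      intro p _ ι hp
      obtain ⟨y, hy⟩ := hodd p ι hp
      obtain ⟨y', hy'⟩ := hodd p (cι ι t) hp
      exact cor_loc (I := IIs ι) ht hε hc.mul (fun σ h3 h4 => hy σ h3 h4) (fun σ h3 h4 => by
        rw [hy' _ (II_conj h3) (conj_kr ht hε h4), vl_conj])) (by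
      intro ι hι
      obtain ⟨y, hy⟩ := hstr ι hι
      obtain ⟨y', hy'⟩ := hstr (cι ι t) (by rwa [hem])
      exact cor_loc (I := DDs ι) ht hε hc.mul (fun σ h3 h4 => hy σ h3 h4) (fun σ h3 h4 => by
        rw [hy' _ (DD_conj h3) (conj_kr ht hε h4), vl_conj]))
    obtain ⟨y₂, hy₂⟩ := h2 (cor (χ * sgc ε) ε t c) ⟨cor_cont ht hε hop hc.cont,
        fun σ hσ τ hτ => cor_mul ht hε hc' hσ hτ⟩ (by
      intro p _ ι hp
      obtain ⟨y, hy⟩ := hodd p ι hp
      obtain ⟨y', hy'⟩ := hodd p (cι ι t) hp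
      exact cor_loc (I := IIs ι) ht hε hc' (fun σ h3 h4 => by
        rw [vl_sgc_pos (mem_kr.1 h4).2]
        exact hy σ h3 h4) (fun σ h3 h4 => by
        rw [vl_sgc_pos (mem_kr.1 h4).2, hy' _ (II_conj h3) (conj_kr ht hε h4), vl_conj])) (by
      intro ι hι
      obtain ⟨y, hy⟩ := hstr ι hι
      obtain ⟨y', hy'⟩ := hstr (cι ι t) (by rwa [hem])
      exact cor_loc (I := DDs ι) ht hε hc' (fun σ h3 h4 => by
        rw [vl_sgc_pos (mem_kr.1 h4).2]
        exact hy σ h3 h4) (fun σ h3 h4 => by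
        rw [vl_sgc_pos (mem_kr.1 h4).2, hy' _ (DD_conj h3) (conj_kr ht hε h4), vl_conj]))
    refine ⟨(y₁ + y₂) / 2, fun σ hσ => ?_⟩
    obtain ⟨g1, g2⟩ := mem_kr.1 hσ
    have e1 := hy₁ σ g1
    have e2 := hy₂ σ g1
    unfold cor at e1 e2
    rw [if_pos g2] at e1 e2
    rw [vl_sgc_neg hε, vl_sgc_pos g2] at e2
    have h2 : (2 : ℚ_[2]) ≠ 0 := two_ne_zero
    field_simp
    linear_combination e1 + e2
  · push Not at hG
    have e : kr ε G' = G' := by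
      ext σ
      constructor
      · exact fun h => (mem_kr.1 h).1
      · intro h
        refine mem_kr.2 ⟨h, ?_⟩
        rcases Int.units_eq_one_or (ε σ) with h3 | h3
        · exact h3
        · exact absurd h3 (hG σ h)
    rwa [e]

/-! ### The characters of order two -/

section sign

open scoped Classical

/-- the character of `K(s)`, `s ^ 2 ∈ K` -/
noncomputable def es {s : QB} (hs0 : s ≠ 0) (hs : ∀ σ : GK i₀, σ s = s ∨ σ s = -s) :
    GK i₀ →* ℤˣ where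
  toFun σ := if σ s = s then 1 else -1
  map_one' := if_pos rfl
  map_mul' σ τ := by
    have hne : -s ≠ s := fun h => hs0 (by
      have h2 : (2 : QB) * s = 0 := by linear_combination -h
      exact (mul_eq_zero.1 h2).resolve_left two_ne_zero)
    show (if (σ * τ) s = s then (1 : ℤˣ) else -1) =
      (if σ s = s then 1 else -1) * (if τ s = s then 1 else -1)
    rw [AlgEquiv.mul_apply]
    rcases hs σ with h1 | h1 <;> rcases hs τ with h2 | h2
    · simp [h1, h2]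
    · rw [h2, map_neg, h1, if_neg hne, if_pos rfl, one_mul]
    · rw [h2, h1, if_pos rfl, mul_one]
    · rw [h2, map_neg, h1, neg_neg, if_pos rfl, if_neg hne]
      rfl

variable {s : QB} (hs0 : s ≠ 0) (hs : ∀ σ : GK i₀, σ s = s ∨ σ s = -s)

lemma es_one {σ : GK i₀} : es hs0 hs σ = 1 ↔ σ s = s := by
  show (if σ s = s then (1 : ℤˣ) else -1) = 1 ↔ _
  split_ifs with h
  · simp [h]
  · simp [h]

lemma es_neg {σ : GK i₀} : es hs0 hs σ = -1 ↔ σ s = -s := by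
  have hne : s ≠ -s := fun h => hs0 (by
    have h2 : (2 : QB) * s = 0 := by linear_combination h
    exact (mul_eq_zero.1 h2).resolve_left two_ne_zero)
  constructor
  · intro h
    rcases hs σ with h1 | h1
    · rw [(es_one hs0 hs).2 h1] at h
      exact absurd h (by decide)
    · exact h1
  · intro h
    rcases Int.units_eq_one_or (es hs0 hs σ) with h1 | h1
    · rw [es_one, h] at h1
      exact absurd h1.symm hne
    · exact h1

lemma es_open (u : ℤˣ) : IsOpen {g : GK i₀ | es hs0 hs g = u} := by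
  have ha : IsLocallyConstant fun τ : GK i₀ => τ s :=
    Pool.Agent.W309.TD.locConst_apply (K := KK i₀) (Ω := QB) s
  rcases Int.units_eq_one_or u with rfl | rfl
  · have e : {g : GK i₀ | es hs0 hs g = 1} = {g : GK i₀ | g s = s} := by
      ext g
      exact es_one hs0 hs
    rw [e]
    exact ha.isOpen_fiber s
  · have e : {g : GK i₀ | es hs0 hs g = -1} = {g : GK i₀ | g s = -s} := by
      ext g
      exact es_neg hs0 hs
    rw [e]
    exact ha.isOpen_fiber (-s)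

end sign

/-! ### The characters of the twists -/

section twist

open scoped Classical

lemma cont_sgc {G : Type} [Group G] [TopologicalSpace G] {ε : G →* ℤˣ}
    (hop : ∀ u : ℤˣ, IsOpen {g | ε g = u}) : Continuous (sgc ε) := by
  have h1 : IsLocallyConstant (fun g => ε g) := (IsLocallyConstant.iff_isOpen_fiber).2 fun u => hop u
  have h2 : IsLocallyConstant (fun g => sgc ε g) :=
    h1.comp (fun u => (Units.map (Int.castRingHom ℤ_[2]).toMonoidHom) u)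
  exact h2.continuous

lemma sgc_one {G : Type} [Group G] [TopologicalSpace G] {ε : G →* ℤˣ} {σ : G} (h : ε σ = 1) :
    sgc ε σ = 1 := by
  unfold sgc
  rw [MonoidHom.comp_apply, h, map_one]

lemma sgc_neg {G : Type} [Group G] [TopologicalSpace G] {ε : G →* ℤˣ} {σ : G} (h : ε σ = -1) :
    sgc ε σ = -1 := by
  unfold sgc
  rw [MonoidHom.comp_apply, h]
  ext
  simp

variable {κ κ' : GK i₀ →* ℤ_[2]ˣ} {D : OO} {r I : QB}

/-- change of the square root -/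
lemma KD.resc (kd : KD hi κ κ' D r I) {D' : OO} {u : QB} (hu0 : u ≠ 0)
    (hu : ∀ σ : GK i₀, σ u = u) (hr' : (u * r) ^ 2 = em hi D') : KD hi κ κ' D' (u * r) I := by
  have h1 : ∀ (σ : GK i₀) (y : QB), σ (u * y) = u * y ↔ σ y = y := by
    intro σ y
    rw [map_mul, hu]
    exact ⟨fun h => mul_left_cancel₀ hu0 h, fun h => by rw [h]⟩
  have h2 : ∀ (σ : GK i₀) (y : QB), σ (u * y) = -(u * y) ↔ σ y = -y := by
    intro σ y
    rw [map_mul, hu, ← mul_neg]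
    exact ⟨fun h => mul_left_cancel₀ hu0 h, fun h => by rw [h]⟩
  have e : I * (u * r) = u * (I * r) := by ring
  refine ⟨hr', kd.hI, kd.cont, kd.cont', ?_, ?_, ?_, ?_, ?_, ?_⟩
  · intro σ h
    rw [e, h1] at h
    exact kd.one σ h
  · intro σ h
    rw [e, h2] at h
    exact kd.neg σ h
  · intro σ h
    rw [h1] at h
    exact kd.one' σ h
  · intro σ h
    rw [h2] at h
    exact kd.neg' σ h
  · intro p _ ι τ σ hc hin hn
    rw [e, h1, h2]
    exact kd.inert p ι τ σ hc hin hn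
  · intro p _ ι τ σ hc hin hn
    rw [h1, h2]
    exact kd.inert' p ι τ σ hc hin hn

/-- twists -/
lemma KD.twist (kd : KD hi κ κ' D r I) {s : QB} (hs0 : s ≠ 0)
    (hs : ∀ σ : GK i₀, σ s = s ∨ σ s = -s) {E : OO} (hE : s ^ 2 = em hi E) (hr0 : r ≠ 0) :
    KD hi (κ * sgc (es hs0 hs)) (κ' * sgc (es hs0 hs)) (D * E) (r * s) I := by
  have hI0 : I ≠ 0 := by
    intro h0
    have := kd.hI
    rw [h0] at this
    norm_num at this
  have hIr : (I * r) ^ 2 = em hi (-D) := by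
    rw [mul_pow, kd.hI, kd.hr, map_neg]
    ring
  have key : ∀ (σ : GK i₀) (y : QB), y ≠ 0 → (σ y = y ∨ σ y = -y) →
      (σ (y * s) = y * s → (σ y = y ∧ es hs0 hs σ = 1) ∨ (σ y = -y ∧ es hs0 hs σ = -1)) ∧
      (σ (y * s) = -(y * s) → (σ y = y ∧ es hs0 hs σ = -1) ∨ (σ y = -y ∧ es hs0 hs σ = 1)) := by
    intro σ y hy h
    have hne : y * s ≠ -(y * s) := by
      intro h1
      have h2 : (2 : QB) * (y * s) = 0 := by linear_combination h1
      exact mul_ne_zero hy hs0 ((mul_eq_zero.1 h2).resolve_left two_ne_zero)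
    rw [map_mul]
    rcases h with h | h <;> rcases hs σ with h1 | h1
    · rw [h, h1]
      exact ⟨fun _ => Or.inl ⟨rfl, (es_one hs0 hs).2 h1⟩, fun h2 => absurd h2 hne⟩
    · rw [h, h1, mul_neg]
      exact ⟨fun h2 => absurd h2.symm hne, fun _ => Or.inl ⟨rfl, (es_neg hs0 hs).2 h1⟩⟩
    · rw [h, h1, neg_mul]
      exact ⟨fun h2 => absurd h2.symm hne, fun _ => Or.inr ⟨rfl, (es_one hs0 hs).2 h1⟩⟩
    · rw [h, h1, neg_mul_neg]
      exact ⟨fun _ => Or.inr ⟨rfl, (es_neg hs0 hs).2 h1⟩, fun h2 => absurd h2 hne⟩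
  have hop := es_open hs0 hs
  have ap : ∀ (κ : GK i₀ →* ℤ_[2]ˣ) (σ : GK i₀),
      (κ * sgc (es hs0 hs)) σ = κ σ * sgc (es hs0 hs) σ := fun _ _ => rfl
  have phn : ph (-1 : ℤ_[2]ˣ) = -1 := by
    rw [ph_neg]
    simp
  have e : I * (r * s) = (I * r) * s := by ring
  refine ⟨?_, kd.hI, ?_, ?_, ?_, ?_, ?_, ?_, ?_, ?_⟩
  · rw [mul_pow, kd.hr, hE, map_mul]
  · exact kd.cont.mul (cont_sgc hop)
  · exact kd.cont'.mul (cont_sgc hop)
  · intro σ h
    rw [e] at h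
    rw [ap, map_mul]
    rcases (key σ _ (mul_ne_zero hI0 hr0) (rt_or hi hIr σ)).1 h with ⟨g1, g2⟩ | ⟨g1, g2⟩
    · rw [kd.one σ g1, sgc_one g2, map_one, one_mul]
    · rw [kd.neg σ g1, sgc_neg g2, phn, neg_mul_neg, one_mul]
  · intro σ h
    rw [e] at h
    rw [ap, map_mul]
    rcases (key σ _ (mul_ne_zero hI0 hr0) (rt_or hi hIr σ)).2 h with ⟨g1, g2⟩ | ⟨g1, g2⟩
    · rw [kd.one σ g1, sgc_neg g2, phn, one_mul]
    · rw [kd.neg σ g1, sgc_one g2, map_one, mul_one]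
  · intro σ h
    rw [ap, map_mul]
    rcases (key σ _ hr0 (rt_or hi kd.hr σ)).1 h with ⟨g1, g2⟩ | ⟨g1, g2⟩
    · rw [kd.one' σ g1, sgc_one g2, map_one, one_mul]
    · rw [kd.neg' σ g1, sgc_neg g2, phn, neg_mul_neg, one_mul]
  · intro σ h
    rw [ap, map_mul]
    rcases (key σ _ hr0 (rt_or hi kd.hr σ)).2 h with ⟨g1, g2⟩ | ⟨g1, g2⟩
    · rw [kd.one' σ g1, sgc_neg g2, phn, one_mul]
    · rw [kd.neg' σ g1, sgc_one g2, map_one, mul_one]
  · intro p _ ι τ σ hc hin hn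
    have h1 := kd.inert p ι τ σ hc hin hn
    rw [e, ap]
    constructor
    · intro h
      rcases (key σ _ (mul_ne_zero hI0 hr0) (rt_or hi hIr σ)).1 h with ⟨g1, g2⟩ | ⟨g1, g2⟩
      · rw [h1.1 g1, sgc_one g2, one_mul]
      · rw [h1.2 g1, sgc_neg g2, neg_mul_neg, one_mul]
    · intro h
      rcases (key σ _ (mul_ne_zero hI0 hr0) (rt_or hi hIr σ)).2 h with ⟨g1, g2⟩ | ⟨g1, g2⟩
      · rw [h1.1 g1, sgc_neg g2, one_mul]
      · rw [h1.2 g1, sgc_one g2, mul_one]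
  · intro p _ ι τ σ hc hin hn
    have h1 := kd.inert' p ι τ σ hc hin hn
    rw [ap]
    constructor
    · intro h
      rcases (key σ _ hr0 (rt_or hi kd.hr σ)).1 h with ⟨g1, g2⟩ | ⟨g1, g2⟩
      · rw [h1.1 g1, sgc_one g2, one_mul]
      · rw [h1.2 g1, sgc_neg g2, neg_mul_neg, one_mul]
    · intro h
      rcases (key σ _ hr0 (rt_or hi kd.hr σ)).2 h with ⟨g1, g2⟩ | ⟨g1, g2⟩
      · rw [h1.1 g1, sgc_neg g2, one_mul]
      · rw [h1.2 g1, sgc_one g2, mul_one]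

end twist

/-! ### Multiquadratic fields -/

section mq

variable {n : ℕ} (s : Fin n → QB)

/-- the Galois group of `ℚ̄` over the field generated by the `s_i`, `i ∈ A` -/
def fixs (A : Finset (Fin n)) : Subgroup (GK i₀) where
  carrier := {σ | ∀ i ∈ A, σ (s i) = s i}
  mul_mem' := by
    intro a b ha hb i hi'
    rw [AlgEquiv.mul_apply, hb i hi', ha i hi']
  one_mem' := fun i _ => rfl
  inv_mem' := by
    intro a ha i hi'
    have h1 := ha i hi'
    calc a⁻¹ (s i) = a⁻¹ (a (s i)) := by rw [h1]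
      _ = s i := by rw [← AlgEquiv.mul_apply, inv_mul_cancel, AlgEquiv.one_apply]

variable {s} (hs0 : ∀ i, s i ≠ 0) (hs : ∀ (i) (σ : GK i₀), σ (s i) = s i ∨ σ (s i) = -s i)

open scoped Classical in
include hs0 hs in
theorem van_all (ϖ : OO) : ∀ (A : Finset (Fin n)) (χ : GK i₀ →* ℤ_[2]ˣ),
    (∀ T ⊆ A, VanOn hi ϖ (χ * ∏ i ∈ T, sgc (es (hs0 i) (hs i))) ⊤) →
      VanOn hi ϖ χ (fixs s A) := by
  intro A
  induction A using Finset.induction_on with
  | empty =>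
    intro χ h
    have h1 := h ∅ (Finset.Subset.refl _)
    rw [Finset.prod_empty, mul_one] at h1
    have e : (fixs s ∅ : Subgroup (GK i₀)) = ⊤ := by
      ext σ
      exact ⟨fun _ => trivial, fun _ i hi' => absurd hi' (Finset.notMem_empty i)⟩
    rwa [e]
  | insert i A hiA ih =>
    intro χ h
    have e : (fixs s (insert i A) : Subgroup (GK i₀)) = kr (es (hs0 i) (hs i)) (fixs s A) := by
      ext σ
      constructor
      · intro h1
        exact mem_kr.2 ⟨fun j hj => h1 j (Finset.mem_insert_of_mem hj),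
          (es_one (hs0 i) (hs i)).2 (h1 i (Finset.mem_insert_self _ _))⟩
      · intro h1 j hj
        obtain ⟨h2, h3⟩ := mem_kr.1 h1
        rcases Finset.mem_insert.1 hj with rfl | hj
        · exact (es_one (hs0 j) (hs j)).1 h3
        · exact h2 j hj
    rw [e]
    refine VanOn.step hi (es_open (hs0 i) (hs i)) (ih χ fun T hT =>
      h T (hT.trans (Finset.subset_insert _ _))) (ih _ fun T hT => ?_)
    have h1 := h (insert i T) (Finset.insert_subset_insert _ hT)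
    rw [Finset.prod_insert (fun h => hiA (hT h)), ← mul_assoc] at h1
    exact h1

variable {κ κ' : GK i₀ →* ℤ_[2]ˣ} {D : OO} {r I : QB}

lemma KD.ne (kd : KD hi κ κ' D r I) (hD : D ≠ 0) : r ≠ 0 := by
  intro h
  have h1 := kd.hr
  rw [h, zero_pow two_ne_zero] at h1
  exact hD (em_inj hi h1.symm)

open scoped Classical in
lemma KD.twists {E : Fin n → OO} (hE : ∀ i, s i ^ 2 = em hi (E i)) (kd : KD hi κ κ' D r I)
    (hD : D ≠ 0) (hE0 : ∀ i, E i ≠ 0) (T : Finset (Fin n)) :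
    KD hi (κ * ∏ i ∈ T, sgc (es (hs0 i) (hs i))) (κ' * ∏ i ∈ T, sgc (es (hs0 i) (hs i)))
      (D * ∏ i ∈ T, E i) (r * ∏ i ∈ T, s i) I := by
  induction T using Finset.induction_on with
  | empty => simpa using kd
  | insert i T hiT ih =>
    have hD' : D * ∏ i ∈ T, E i ≠ 0 :=
      mul_ne_zero hD (Finset.prod_ne_zero_iff.2 fun i _ => hE0 i)
    have h1 := KD.twist hi ih (hs0 i) (hs i) (hE i) (KD.ne hi ih hD')
    rw [Finset.prod_insert hiT, Finset.prod_insert hiT, Finset.prod_insert hiT]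
    have e1 : ∀ κ : GK i₀ →* ℤ_[2]ˣ, κ * (sgc (es (hs0 i) (hs i)) *
        ∏ i ∈ T, sgc (es (hs0 i) (hs i))) = κ * (∏ i ∈ T, sgc (es (hs0 i) (hs i))) *
        sgc (es (hs0 i) (hs i)) := by
      intro κ
      refine MonoidHom.ext fun σ => ?_
      have key : ∀ a b c : ℤ_[2]ˣ, a * (b * c) = a * c * b := fun a b c => by
        rw [mul_assoc, mul_comm b]
      exact key _ _ _
    have e2 : D * (E i * ∏ i ∈ T, E i) = D * (∏ i ∈ T, E i) * E i := by ring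
    have e3 : r * (s i * ∏ i ∈ T, s i) = r * (∏ i ∈ T, s i) * s i := by ring
    rw [e1, e1, e2, e3]
    exact h1

/-- **The vanishing theorem over multiquadratic fields.** -/
theorem vanish_mq {E : Fin n → OO} (hE : ∀ i, s i ^ 2 = em hi (E i)) (kd : KD hi κ κ' D r I)
    (hD : D ≠ 0) (hE0 : ∀ i, E i ≠ 0)
    (hgood : ∀ T : Finset (Fin n), ∃ (m : ℕ) (q : Fin m → OO) (z : OO), (∀ i, Pr (q i)) ∧
      Function.Injective q ∧ (8 : OO) ∣ ∏ i, q i - 1 ∧ Indec7 q ∧ z ≠ 0 ∧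
      D * ∏ i ∈ T, E i = -(s7 * ∏ i, q i) * z ^ 2) (j : ℤ) {ϖ ϖ' : OO}
    (hϖ : (Even j ∧ ϖ = om ∧ ϖ' = 1 - om) ∨ (Odd j ∧ ϖ = 1 - om ∧ ϖ' = om)) :
    VanOn hi ϖ (κ ^ j * κ' ^ (1 - j)) (fixs s Finset.univ) := by
  classical
  have hs0 : ∀ i, s i ≠ 0 := by
    intro i h
    have h1 := hE i
    rw [h, zero_pow two_ne_zero] at h1
    exact hE0 i (em_inj hi h1.symm)
  have hs : ∀ (i) (σ : GK i₀), σ (s i) = s i ∨ σ (s i) = -s i := fun i σ => rt_or hi (hE i) σ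
  refine van_all hi hs0 hs ϖ Finset.univ _ fun T _ => ?_
  obtain ⟨m, q, z, hq, hinj, h8, hind, hz, hprod⟩ := hgood T
  have kd1 := KD.twists hi hs0 hs hE kd hD hE0 T
  have hz0 : em hi z ≠ 0 := em_ne hi hz
  have kd2 := KD.resc hi kd1 (D' := -(s7 * ∏ i, q i)) (u := (em hi z)⁻¹) (inv_ne_zero hz0)
    (fun σ => by rw [map_inv₀, gk_em]) (by
      rw [mul_pow, kd1.hr, hprod, map_mul, map_pow]
      field_simp)
  set S := ∏ i ∈ T, sgc (es (hs0 i) (hs i)) with hS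
  have e : κ ^ j * κ' ^ (1 - j) * S = (κ * S) ^ j * (κ' * S) ^ (1 - j) := by
    refine MonoidHom.ext fun σ => ?_
    have key : ∀ a b c : ℤ_[2]ˣ, a ^ j * b ^ (1 - j) * c = (a * c) ^ j * (b * c) ^ (1 - j) :=
      fun a b c => by
        rw [mul_zpow, mul_zpow, mul_mul_mul_comm, ← zpow_add, add_sub_cancel, zpow_one]
    exact key _ _ _
  intro c hc hodd hstr
  rw [e] at hc hodd hstr ⊢
  obtain ⟨y, hy⟩ := vanish7 hi hq hinj h8 hind rfl kd2 j hϖ
    (c := c) ⟨by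
      have := hc.cont
      rwa [Subgroup.coe_top, continuousOn_univ] at this, fun σ τ => hc.mul σ trivial τ trivial⟩
    (fun p _ ι hp => by
      obtain ⟨y, hy⟩ := hodd p ι hp
      exact ⟨y, fun σ hσ => hy σ hσ trivial⟩)
    (fun ι hι => by
      obtain ⟨y, hy⟩ := hstr ι hι
      exact ⟨y, fun σ hσ => hy σ hσ trivial⟩)
  exact ⟨y, fun σ _ => hy σ⟩

end mq

end Pool.Agent.R384
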