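import Pool.Agent.R384.Inf2

/-!
# The prime `√-7` of `ℤ[ω]`
-/

set_option autoImplicit false
set_option linter.unusedSectionVars false

namespace Pool.Agent.R384

open QuadraticAlgebra

open scoped NumberTheorySymbols

/-- `√-7` -/
def s7 : OO := ⟨-1, 2⟩

lemma s7_sq : s7 * s7 = -7 := by
  ext
  · rw [re_neg, re_ofNat]; simp [s7]
  · rw [im_neg, im_ofNat]; simp [s7]

lemma nn_s7 : nn s7 = 7 := by simp [nn, s7]

lemma prime_s7 : Prime s7 := prime_of_nn (p := 7) (by norm_num) (by rw [nn_s7]; rfl)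

/-- reduction modulo `√-7` -/
def rd7 : OO →+* ZMod 7 where
  toFun x := (x.re : ZMod 7) + 4 * (x.im : ZMod 7)
  map_one' := by simp
  map_zero' := by simp
  map_add' x y := by
    rw [re_add, im_add]
    push_cast
    ring
  map_mul' x y := by
    rw [re_mul, im_mul]
    push_cast
    have h14 : (14 : ZMod 7) = 0 := by decide
    linear_combination (-(x.im : ZMod 7) * y.im) * h14

lemma rd7_apply (x : OO) : rd7 x = (x.re : ZMod 7) + 4 * (x.im : ZMod 7) := rfl

lemma s7_dvd {x : OO} : s7 ∣ x ↔ rd7 x = 0 := by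
  constructor
  · rintro ⟨t, rfl⟩
    rw [map_mul]
    have : rd7 s7 = 0 := by
      rw [rd7_apply]
      decide
    rw [this, zero_mul]
  · intro h
    have h1 : ((x.re + 4 * x.im : ℤ) : ZMod 7) = 0 := by
      rw [rd7_apply] at h
      push_cast
      exact h
    obtain ⟨k, hk⟩ := (ZMod.intCast_zmod_eq_zero_iff_dvd _ 7).1 h1
    push_cast at hk
    refine ⟨-s7 * (k : OO) + (x.im : OO) * om, ?_⟩
    have e : s7 * (-s7 * (k : OO) + (x.im : OO) * om) = -(s7 * s7) * (k : OO) +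
        (x.im : OO) * (s7 * om) := by ring
    rw [e, s7_sq]
    ext
    · have hr : x.re = 7 * k - 4 * x.im := by linarith
      simp [s7, om, hr]
      ring
    · simp [s7, om]

lemma sqm_s7 {x : OO} : Sqm s7 x ↔ IsSquare (rd7 x) := by
  constructor
  · rintro ⟨y, hy⟩
    rw [s7_dvd, map_sub, map_pow, sub_eq_zero] at hy
    exact ⟨rd7 y, by rw [hy, pow_two]⟩
  · rintro ⟨a, ha⟩
    refine ⟨((a.val : ℤ) : OO), ?_⟩
    rw [s7_dvd, map_sub, map_pow, ha, map_intCast]
    push_cast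
    rw [ZMod.natCast_zmod_val]
    ring

lemma qs7_mul {x y : OO} (hx : ¬ s7 ∣ x) (hy : ¬ s7 ∣ y) : qs s7 (x * y) = qs s7 x + qs s7 y := by
  classical
  rw [s7_dvd] at hx hy
  have key : ∀ z : OO, qs s7 z = if IsSquare (rd7 z) then 0 else 1 := by
    intro z
    unfold qs
    simp only [sqm_s7]
  rw [key, key, key, map_mul]
  revert hx hy
  generalize rd7 x = a
  generalize rd7 y = b
  revert a b
  decide

lemma qs7_sq {x : OO} : qs s7 (x ^ 2) = 0 := qs_zero.2 ⟨x, by simp⟩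

lemma qs7_mul_sq {x y : OO} (hx : ¬ s7 ∣ x) (hy : ¬ s7 ∣ y) : qs s7 (x * y ^ 2) = qs s7 x := by
  rw [qs7_mul hx (fun h => hy (prime_s7.dvd_of_dvd_pow h)), qs7_sq, add_zero]

lemma qs7_prod {ι : Type*} (S : Finset ι) (f : ι → OO) (hf : ∀ i ∈ S, ¬ s7 ∣ f i) :
    qs s7 (∏ i ∈ S, f i) = ∑ i ∈ S, qs s7 (f i) := by
  classical
  induction S using Finset.induction_on with
  | empty =>
    rw [Finset.prod_empty, Finset.sum_empty]
    exact qs_zero.2 ⟨1, by simp⟩
  | insert i S hi ih =>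
    rw [Finset.prod_insert hi, Finset.sum_insert hi, qs7_mul, ih]
    · exact fun j hj => hf j (Finset.mem_insert_of_mem hj)
    · exact hf i (Finset.mem_insert_self _ _)
    · intro h1
      obtain ⟨j, hj, h2⟩ := (prime_s7.dvd_finsetProd_iff _).1 h1
      exact hf j (Finset.mem_insert_of_mem hj) h2

lemma qs7_neg_one : qs s7 (-1) = 1 := by
  have h : ¬ Sqm s7 (-1) := by
    rw [sqm_s7, map_neg, map_one]
    decide
  have h01 : ∀ a : ZMod 2, ¬ a = 0 → a = 1 := by decide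
  apply h01
  rwa [qs_zero]

lemma qs7_om : qs s7 om = 0 := by
  rw [qs_zero, sqm_s7, rd7_apply]
  have : ((om.re : ℤ) : ZMod 7) + 4 * ((om.im : ℤ) : ZMod 7) = 4 := by
    simp [om]
  rw [this]
  decide

lemma qs7_om' : qs s7 (1 - om) = 0 := by
  rw [qs_zero, sqm_s7, map_sub, map_one, rd7_apply]
  have : ((om.re : ℤ) : ZMod 7) + 4 * ((om.im : ℤ) : ZMod 7) = 4 := by
    simp [om]
  rw [this]
  decide

/-! ### Divisibility -/

variable {q : OO}

lemma nn_mod4 (h : Pr q) : nn q % 4 = 1 := by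
  obtain ⟨a, ha⟩ := h.re
  obtain ⟨b, hb⟩ := h.im
  have e : nn q = 4 * (4 * a ^ 2 + 2 * a + (4 * a + 1) * b + 8 * b ^ 2) + 1 := by
    rw [nn, hb, show q.re = 4 * a + 1 by linarith]
    ring
  omega

lemma Pr.not_s7 (h : Pr q) : ¬ q ∣ s7 := by
  intro hd
  obtain ⟨t, ht⟩ := hd
  have h1 := congrArg nn ht
  rw [nn_mul, nn_s7] at h1
  have h5 := nn_mod4 h
  have h6 := nn_nonneg q
  have h7 : nn q ∣ 7 := ⟨_, h1⟩
  have h8 : nn q ≤ 7 := Int.le_of_dvd (by norm_num) h7
  have h9 : nn q ≠ 1 := fun h' => h.prime.not_isUnit (unit_iff.2 h')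
  have h10 : nn q = 5 := by omega
  rw [h10] at h7
  norm_num at h7

lemma Pr.s7_not (h : Pr q) : ¬ s7 ∣ q := by
  intro hd
  exact h.not_s7 ((prime_s7.dvd_prime_iff_associated h.prime).1 hd).symm.dvd

/-! ### Reciprocity -/

lemma jac7 {t : ℤ} (h : ¬ (7 : ℤ) ∣ t) : J(t | 7) = 1 ↔ IsSquare (t : ZMod 7) := by
  have : Fact (Nat.Prime 7) := ⟨by norm_num⟩
  rw [← jacobiSym.legendreSym.to_jacobiSym, legendreSym.eq_one_iff _
    (by rw [Ne, ZMod.intCast_zmod_eq_zero_iff_dvd]; exact_mod_cast h)]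

/-- `J(7 | |t|)` -/
lemma jac_abs {t : ℤ} (ho : t % 2 = 1) :
    J(((7 : ℕ) : ℤ) | t.natAbs) = (if t % 4 = 1 then 1 else -1) * J(t | 7) := by
  have h7 : Odd 7 := by decide
  have hneg : ∀ n : ℤ, J(-n | 7) = -J(n | 7) := by
    intro n
    rw [jacobiSym.neg _ h7]
    have : ZMod.χ₄ (7 : ℕ) = -1 := by decide
    rw [this]
    ring
  rcases Int.natAbs_eq t with h | h
  · have h1 : (t.natAbs : ℤ) % 2 = 1 := by rw [← h]; exact ho
    have h2 : t.natAbs % 2 = 1 := by omega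
    have e : J((t.natAbs : ℤ) | 7) = J(t | 7) := by rw [← h]
    rcases (by omega : t.natAbs % 4 = 1 ∨ t.natAbs % 4 = 3) with h3 | h3
    · rw [if_pos (by omega), one_mul, ← e]
      exact jacobiSym.quadratic_reciprocity_one_mod_four' h7 h3
    · rw [if_neg (by omega), ← e]
      have := jacobiSym.quadratic_reciprocity_three_mod_four (a := 7) (b := t.natAbs) (by norm_num) h3
      rw [this]
      ring
  · have h2 : t.natAbs % 2 = 1 := by omega
    have e : J((t.natAbs : ℤ) | 7) = -J(t | 7) := by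
      rw [← hneg]
      congr 1
      linarith
    rcases (by omega : t.natAbs % 4 = 1 ∨ t.natAbs % 4 = 3) with h3 | h3
    · rw [if_neg (by omega), jacobiSym.quadratic_reciprocity_one_mod_four' h7 h3, e]
      ring
    · rw [if_pos (by omega), one_mul]
      have := jacobiSym.quadratic_reciprocity_three_mod_four (a := 7) (b := t.natAbs) (by norm_num) h3
      rw [this, e]
      ring

lemma recip7_split (hq : Pr q) {p : ℕ} [hp : Fact p.Prime] (hp4 : p % 4 = 1) (hpn : nn q = p) :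
    qs q s7 = qs s7 q := by
  obtain ⟨h1, h2⟩ := split_symb hq.prime hpn hq hq.not_s7
  obtain ⟨a, ha⟩ := hq.re
  obtain ⟨c, hc⟩ := hq.im
  set t : ℤ := q.re + 2 * c with ht
  have e1 : q.im * s7.re - q.re * s7.im = -2 * t := by
    have : s7.re = -1 ∧ s7.im = 2 := ⟨rfl, rfl⟩
    rw [this.1, this.2, ht, hc]
    ring
  rw [e1] at h1 h2
  have hto : t % 2 = 1 := by omega
  have htn : Odd t.natAbs := by
    rw [Int.natAbs_odd]
    exact Int.odd_iff.2 hto
  have e2 : (-2 * t).natAbs = 2 ^ 1 * t.natAbs := by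
    rw [Int.natAbs_mul, pow_one]
    rfl
  apply qs_eq
  rw [h2, jacobiSym.mul_left, im_symb hq.prime hpn hq hp4, one_mul, jac_gen hp4 htn e2, pow_one]
  -- `p = t² + 28 c²`
  have hp28 : (p : ℤ) = t ^ 2 + 7 * (2 * c) ^ 2 := by
    rw [← hpn, nn, hc, ht]
    ring
  have h7t : ¬ (7 : ℤ) ∣ t := by
    rintro ⟨k, hk⟩
    have h3 : (7 : ℤ) ∣ p := ⟨7 * k ^ 2 + (2 * c) ^ 2, by rw [hp28, hk]; ring⟩
    have h4 : 7 ∣ p := by exact_mod_cast h3
    have h5 : 7 = p := (Nat.prime_dvd_prime_iff_eq (by norm_num) hp.out).1 h4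
    omega
  have hJp : J(p | t.natAbs) = J(((7 : ℕ) : ℤ) | t.natAbs) := by
    have h3 : J(p | t.natAbs) = J(((7 : ℕ) : ℤ) * (2 * c) ^ 2 | t.natAbs) := by
      apply jacobiSym.mod_left'
      apply Int.ModEq.eq
      apply (Int.modEq_iff_dvd).2
      rw [hp28]
      have : ((7 : ℕ) : ℤ) * (2 * c) ^ 2 - (t ^ 2 + 7 * (2 * c) ^ 2) = t * -t := by
        push_cast
        ring
      rw [this]
      exact Dvd.dvd.mul_right (Int.natAbs_dvd.2 (dvd_refl _)) _
    rw [h3, jacobiSym.mul_left]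
    have h4 : Int.gcd (2 * c) (t.natAbs : ℤ) = 1 := by
      by_contra hcon
      obtain ⟨l, hl, hd⟩ := Nat.exists_prime_and_dvd hcon
      have g1 : (l : ℤ) ∣ 2 * c := (Int.natCast_dvd_natCast.2 hd).trans (Int.gcd_dvd_left ..)
      have g2 : (l : ℤ) ∣ t := ((Int.natCast_dvd_natCast.2 hd).trans (Int.gcd_dvd_right ..)).trans
        (Int.natAbs_dvd.2 (dvd_refl _))
      have g3 : (l : ℤ) ∣ q.re := by
        have : q.re = t - 2 * c := by rw [ht]; ring
        rw [this]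
        exact dvd_sub g2 g1
      have g4 : (l : ℤ) ∣ q.im := by
        rw [hc]
        have : 4 * c = 2 * (2 * c) := by ring
        rw [this]
        exact Dvd.dvd.mul_left g1 _
      have g5 := Int.dvd_coe_gcd g3 g4
      rw [split_cop hq.prime hpn] at g5
      have g6 : l ∣ 1 := by exact_mod_cast g5
      exact hl.one_lt.ne' (Nat.dvd_one.1 g6)
    rw [jacobiSym.sq_one' h4, mul_one]
  rw [hJp, jac_abs hto]
  have h8 : J(2 | p) = if t % 4 = 1 then 1 else -1 := by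
    have hpo : Odd p := Nat.odd_iff.2 (by omega)
    rw [jacobiSym.at_two hpo, ZMod.χ₈_nat_eq_if_mod_eight, if_neg (by omega)]
    have hp8 : (p : ℤ) = 8 * (2 * a ^ 2 + a + 2 * a * c + 4 * c ^ 2) + 4 * c + 1 := by
      rw [← hpn, nn, hc, show q.re = 4 * a + 1 by linarith]
      ring
    by_cases hc2 : c % 2 = 0
    · rw [if_pos (by omega), if_pos (by omega)]
    · rw [if_neg (by omega), if_neg (by omega)]
  have h9 : J(2 | p) * ((if t % 4 = 1 then (1 : ℤ) else -1) * J(t | 7)) = J(t | 7) := by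
    rw [h8]
    split_ifs <;> ring
  rw [h9, jac7 h7t, sqm_s7, rd7_apply]
  have h10 : ((t : ℤ) : ZMod 7) = (q.re : ZMod 7) + 4 * (q.im : ZMod 7) := by
    rw [ht, hc]
    push_cast
    have h14 : (14 : ZMod 7) = 0 := by decide
    linear_combination (-(c : ZMod 7)) * h14
  rw [h10]

lemma recip7_inert (hq : Pr q) {l : ℕ} {e : ℤ} [hl : Fact l.Prime] (hl2 : l ≠ 2)
    (he : e = l ∨ e = -l) (h4 : (4 : ℤ) ∣ e - 1) (hqe : q = ((e : ℤ) : OO)) :
    qs q s7 = qs s7 q := by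
  subst hqe
  have h1 := inert_symb he hl2 hq.prime h4 hq.not_s7
  have h7 := inert_seven he hq.prime
  have h7e : ¬ (7 : ℤ) ∣ e := by
    intro h
    apply h7
    have h2 : (7 : ℤ) ∣ l := by
      rcases he with rfl | rfl
      · exact h
      · rwa [dvd_neg] at h
    have h3 : 7 ∣ l := by exact_mod_cast h2
    have h5 : 7 = l := (Nat.prime_dvd_prime_iff_eq (by norm_num) hl.out).1 h3
    rw [← h5]
    norm_num
  apply qs_eq
  have hln : e.natAbs = l := by
    rcases he with rfl | rfl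
    · simp
    · simp
  have ho : e % 2 = 1 := by omega
  have h2 := jac_abs ho
  rw [hln, if_pos (by omega), one_mul] at h2
  rw [h1, nn_s7, sqm_s7]
  have e7 : J(7 | l) = J(((7 : ℕ) : ℤ) | l) := rfl
  rw [e7, h2, jac7 h7e, map_intCast]

/-- **Reciprocity for `√-7`.** -/
theorem recip7 (hq : Pr q) : qs q s7 = qs s7 q := by
  rcases hq.cases with ⟨p, hp, hp4, hpn⟩ | ⟨l, e, hl, hl2, he, he4, hqe⟩
  · have : Fact p.Prime := ⟨hp⟩
    exact recip7_split hq hp4 hpn
  · have : Fact l.Prime := ⟨hl⟩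
    exact recip7_inert hq hl2 he he4 hqe

end Pool.Agent.R384
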